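import Pool.Agent.MP_ed46bc_co.SC.Spec
import Pool.Agent.MP_ed46bc_co.SP.LB

/-! # Rows ARC and COV -/

namespace Pool.Agent.MP_ed46bc_co.SC

open Finset Pool.Agent.MP_ed46bc_co.SP
open scoped symmDiff

universe u

lemma arc_add {G : Type u} [AddCommGroup G] {k j t s b : ℕ} (h : Sec G k j) (ht : Odd t)
    (hs : s ≤ k) (hb : b = t * k + s) (hj : b ≤ j * k) :
    Adm G b (((k : ℤ) - s) * ((k : ℤ) - 5 * s)) :=
  ⟨k, j, h, Or.inl ⟨t, s, ht, hs, Or.inl ⟨hb, hj⟩, rfl⟩⟩

lemma arc_del {G : Type u} [AddCommGroup G] {k j t s b : ℕ} (h : Sec G k j) (ht : Odd t)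
    (hs : s ≤ k) (hb : b + s = t * k) (hj : 3 * t < 2 * j) :
    Adm G b (((k : ℤ) - s) * ((k : ℤ) - 5 * s)) :=
  ⟨k, j, h, Or.inl ⟨t, s, ht, hs, Or.inr ⟨hb, hj⟩, rfl⟩⟩

lemma arc_sec (hT : TOP.{u}) {G : Type u} [AddCommGroup G] [Fintype G] [DecidableEq G]
    {i k j t s b : ℕ} (hc : Cl G i) (h : Sec G k j) (hd : k * j ∣ Fintype.card G) (ht : Odd t)
    (k0 : 0 < k) (hs : 5 * s ≤ k) (hb : b = t * k + s ∨ b + s = t * k) (hj : b ≤ j * k) :
    ∃ v, Adm G b v ∧ ((k : ℤ) - s) * ((k : ℤ) - 5 * s) ≤ v := by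
  rcases hb with hb | hb
  · exact ⟨_, arc_add h ht (by omega) hb hj, le_rfl⟩
  rcases Nat.lt_or_ge (3 * t) (2 * j) with h3 | h3
  · exact ⟨_, arc_del h ht (by omega) hb h3, le_rfl⟩
  have h4 : 2 * j + 1 ≤ 3 * t := by
    obtain ⟨r, rfl⟩ := ht
    omega
  have h5 := Nat.mul_le_mul_right k h4
  refine ⟨_, (hT G (j * k) b (by rwa [mul_comm]) hj).1 i hc (by nlinarith), ?_⟩
  exact lb_sq ht (Or.inr hb) (by omega)

theorem arc (hI : INV.{u}) (hS : SEC.{u}) (hT : TOP.{u}) (hD : DOM.{u}) : ARC.{u} := by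
  intro G _ _ _ Q _ _ _ f W i b s hc hf prim g1 bn hs hb
  have ht : Odd W.card := by
    obtain ⟨t, e⟩ := Gam_mod W W (ng W)
    rw [card_ng, g1] at e
    rcases Nat.even_or_odd W.card with ⟨r, hr⟩ | h
    · rw [hr] at e
      push_cast at e
      have : (1 : ℤ) = 4 * (9 * r * r + t) := by rw [e]; ring
      omega
    · exact h
  have k0 := card_sub_pos f.ker
  have cG := card_G hf
  rcases Nat.even_or_odd (Fintype.card Q) with eq | oq
  · obtain ⟨⟨g, hg⟩, ⟨a, c, rfl⟩ | ⟨on, -⟩⟩ := id hc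
    · obtain ⟨j, j1, j2, j3⟩ := hD G Q f g a c hf hg eq
      rcases Nat.lt_or_ge (j * Nat.card f.ker) b with h | h
      · obtain ⟨M, hM⟩ := j3 b bn h
        exact ⟨_, hM, lb_sq ht hb (by omega)⟩
      · exact arc_sec hT hc j1 j2 ht k0 hs hb h
    · rw [cG] at on
      exact absurd (Nat.Odd.of_mul_right on) (Nat.not_odd_iff_even.2 eq)
  · obtain ⟨d, hd⟩ := hI Q W oq prim g1
    have sub : W ⊆ cos (AddSubgroup.zmultiples d) 0 := fun w hw => by simpa using hd w hw
    have cw : W.card ≤ addOrderOf d := by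
      have := card_le_card sub
      rwa [card_cos, Nat.card_zmultiples] at this
    have dv : ∀ x : Q, Nat.card f.ker * addOrderOf x ∣ Fintype.card G := fun x => by
      rw [cG]
      exact Nat.mul_dvd_mul_left _ addOrderOf_dvd_card
    by_cases hj : b ≤ addOrderOf d * Nat.card f.ker
    · exact arc_sec hT hc ((hS G).1 Q f hf d) (dv d) ht k0 hs hb hj
    have c1 := Nat.mul_le_mul_right (Nat.card f.ker) cw
    have hb' : b = W.card * Nat.card f.ker + s := by omega
    have c2 : W.card = addOrderOf d := by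
      by_contra c
      have := Nat.mul_le_mul_right (Nat.card f.ker) (show W.card + 1 ≤ addOrderOf d by omega)
      rw [add_mul] at this
      omega
    have c3 : W = cos (AddSubgroup.zmultiples d) 0 :=
      eq_of_subset_of_card_le sub (by rw [card_cos, Nat.card_zmultiples, c2])
    have c4 : AddSubgroup.zmultiples d = ⊥ := by
      by_contra c
      have pe : Per (AddSubgroup.zmultiples d) W := c3 ▸ per_cos _ _
      refine prim ⟨_, W, W, ng W, c, ⟨pe, pe, per_ng pe, 3, by decide, ?_⟩, ?_⟩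
      · rw [card_ng, Nat.card_zmultiples, c2]; ring
      · have := card_sub_pos (AddSubgroup.zmultiples d)
        simp only [Psi, sig, symmDiff_self, bot_eq_empty, card_empty]
        omega
    have c5 : W.card = 1 := by
      rw [c2, ← Nat.card_zmultiples, c4, AddSubgroup.card_bot]
    have c6 : 1 < Fintype.card Q := by
      by_contra c
      have := Nat.mul_le_mul_left (Nat.card f.ker) (show Fintype.card Q ≤ 1 by omega)
      rw [← c2, c5] at hj
      omega
    have := Fintype.one_lt_card_iff_nontrivial.1 c6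
    obtain ⟨x, hx⟩ := exists_ne (0 : Q)
    have x2 : 2 ≤ addOrderOf x := by
      have h1 := addOrderOf_pos x
      have h2 : addOrderOf x ≠ 1 := fun c => hx (AddMonoid.addOrderOf_eq_one_iff.1 c)
      omega
    have := Nat.mul_le_mul_right (Nat.card f.ker) x2
    refine arc_sec hT hc ((hS G).1 Q f hf x) (dv x) ht k0 hs hb ?_
    rw [c5] at hb'
    omega

lemma cov_cyc {G : Type u} [AddCommGroup G] {j b : ℕ} (h : Sec G 1 j) (b0 : 0 < b) (hb : b ≤ j) :
    ∃ v, Adm G b v ∧ 0 ≤ v := by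
  rcases Nat.even_or_odd b with ⟨r, hr⟩ | ob
  · exact ⟨_, arc_add (t := 2 * (r - 1) + 1) (s := 1) h ⟨_, rfl⟩ le_rfl (by omega) (by omega),
      by norm_num⟩
  · exact ⟨_, arc_add (t := b) (s := 0) h ob (by omega) (by omega) (by omega), by norm_num⟩

theorem cov (hS : SEC.{u}) (hD : DOM.{u}) : COV.{u} := by
  intro G _ _ _ i b hc he b0 bn
  obtain ⟨⟨g, hg⟩, h⟩ := hc
  rcases he with he | rfl
  · rcases h with ⟨a, c, rfl⟩ | ⟨on, -⟩
    · obtain ⟨j, j1, -, j3⟩ := hD G G (AddMonoidHom.id G) g a c Function.surjective_id hg he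
      rw [card_ker_id] at j1 j3
      rcases Nat.lt_or_ge (j * 1) b with h | h
      · obtain ⟨M, hM⟩ := j3 b bn h
        exact ⟨_, hM, sq_nonneg _⟩
      · exact cov_cyc j1 b0 (by omega)
    · exact absurd on (Nat.not_odd_iff_even.2 he)
  · have := (hS G).1 G (AddMonoidHom.id G) Function.surjective_id g
    rw [card_ker_id] at this
    exact cov_cyc this b0 (by omega)

end Pool.Agent.MP_ed46bc_co.SC
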