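import Pool.Agent.MP_ed46bc_co.SC.Spec

/-! Row ATOM: atoms are cosets or Sidon sets. -/

namespace Pool.Agent.MP_ed46bc_co.SC

open Finset Pool.Agent.MP_ed46bc_co.SP
open scoped symmDiff Pointwise

universe u

section

variable {G : Type u} [AddCommGroup G] [Fintype G] [DecidableEq G]

/-- Admissible sets. -/
def atomAd (K : AddSubgroup G) (S X : Finset G) : Prop :=
  (∀ x ∈ X, x ∈ K) ∧ 2 ≤ X.card ∧ (X + S).card + 2 ≤ Nat.card K

variable {K : AddSubgroup G} {S X : Finset G}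

lemma atom_card (h : ∀ x ∈ X, x ∈ K) : (ng (cos K 0 \ X)).card + X.card = Nat.card K := by
  rw [card_ng, card_sdiff_add_card_eq_card fun x hx => by simpa using h x hx, card_cos]

lemma atom_dual (hS : ∀ s ∈ S, s ∈ K) (hX : atomAd K S X)
    (h1 : ∀ Y, atomAd K S Y → (Y + S).card + X.card ≤ (X + S).card + Y.card → X.card ≤ Y.card) :
    X.card + (X + S).card ≤ Nat.card K := by
  have a1 := atom_card hX.1
  have a2 := atom_card (K := K) (X := X + S) fun z hz => by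
    obtain ⟨x, hx, s, hs, rfl⟩ := mem_add.1 hz
    exact K.add_mem (hX.1 x hx) (hS s hs)
  have b : ∀ z ∈ ng (cos K 0 \ (X + S)), z ∈ K := fun z hz => by
    simpa using (mem_sdiff.1 (mem_ng.1 hz)).1
  have a3 : ng (cos K 0 \ (X + S)) + S ⊆ ng (cos K 0 \ X) := fun y hy => by
    obtain ⟨z, hz, s, hs, rfl⟩ := mem_add.1 hy
    rw [mem_ng, mem_sdiff, mem_cos, sub_zero]
    refine ⟨K.neg_mem (K.add_mem (b z hz) (hS s hs)), fun h => (mem_sdiff.1 (mem_ng.1 hz)).2 ?_⟩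
    exact mem_add.2 ⟨_, h, s, hs, by abel⟩
  have a4 := card_le_card a3
  have a5 := hX.2.1
  have a6 := hX.2.2
  have := h1 _ ⟨b, by omega, by omega⟩ (by omega)
  omega

lemma atom_shift (hS : ∀ s ∈ S, s ∈ K) (hX : atomAd K S X)
    (h0 : ∀ Y, atomAd K S Y → (X + S).card + Y.card ≤ (Y + S).card + X.card)
    (h1 : ∀ Y, atomAd K S Y → (Y + S).card + X.card ≤ (X + S).card + Y.card → X.card ≤ Y.card)
    {g : G} (hg : g ∈ K) (h2 : 2 ≤ (X ∩ sh X g).card) : sh X g = X := by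
  have d := atom_dual hS hX h1
  have s1 : sh X g + S ⊆ sh (X + S) g := fun y hy => by
    obtain ⟨z, hz, s, hs, rfl⟩ := mem_add.1 hy
    exact mem_sh.2 (mem_add.2 ⟨_, mem_sh.1 hz, s, hs, by abel⟩)
  have s2 : X ∩ sh X g + S ⊆ (X + S) ∩ sh (X + S) g := subset_inter
    (add_subset_add_right inter_subset_left) ((add_subset_add_right inter_subset_right).trans s1)
  have s3 : X ∪ sh X g + S ⊆ (X + S) ∪ sh (X + S) g := by
    rw [union_add]
    exact union_subset_union_right s1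
  have c1 := card_union_add_card_inter X (sh X g)
  have c2 := card_union_add_card_inter (X + S) (sh (X + S) g)
  have c3 := card_le_card s2
  have c4 := card_le_card s3
  have c5 := card_le_card (inter_subset_left (s₁ := X + S) (s₂ := sh (X + S) g))
  have c6 := card_le_card (subset_union_left (s₁ := X) (s₂ := sh X g))
  rw [card_sh] at c1 c2
  have a5 := hX.2.1
  have a6 := hX.2.2
  have i : atomAd K S (X ∩ sh X g) := ⟨fun x hx => hX.1 x (mem_inter.1 hx).1, h2, by omega⟩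
  have i1 := h0 _ i
  have j := h0 (X ∪ sh X g) ⟨fun x hx => (mem_union.1 hx).elim (hX.1 x) fun h => by
    simpa using K.add_mem (hX.1 _ (mem_sh.1 h)) hg, by omega, by omega⟩
  have e := eq_of_subset_of_card_le inter_subset_left (h1 _ i (by omega))
  exact (eq_of_subset_of_card_le (inter_eq_left.1 e) (card_sh X g).le).symm

end

theorem atom : ATOM.{u} := by
  intro G _ _ _ K S X₀ hS _ a1 a2 a3
  classical
  obtain ⟨X₁, b1, b2⟩ := exists_min_image (univ.filter (atomAd K S))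
    (fun X => ((X + S).card : ℤ) - X.card) ⟨X₀, mem_filter.2 ⟨mem_univ _, a1, a2, a3⟩⟩
  obtain ⟨X, c1, c2⟩ := exists_min_image
    (univ.filter fun X => atomAd K S X ∧ (X + S).card + X₁.card ≤ (X₁ + S).card + X.card) card
    ⟨X₁, mem_filter.2 ⟨mem_univ _, (mem_filter.1 b1).2, le_rfl⟩⟩
  obtain ⟨-, hX, c3⟩ := mem_filter.1 c1
  have h0 : ∀ Y, atomAd K S Y → (X + S).card + Y.card ≤ (Y + S).card + X.card := fun Y hY => by
    have := b2 Y (mem_filter.2 ⟨mem_univ _, hY⟩)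
    omega
  have h := fun g => atom_shift hS hX h0 (g := g) fun Y hY e =>
    c2 Y (mem_filter.2 ⟨mem_univ _, hY, by omega⟩)
  refine ⟨X, hX.1, hX.2.1, hX.2.2, h0 X₀ ⟨a1, a2, a3⟩, or_iff_not_imp_left.2 fun hn => ?_⟩
  obtain ⟨g, g0, g1⟩ : ∃ g : G, g ≠ 0 ∧ 2 ≤ (X ∩ sh X g).card := by
    by_contra hc
    exact hn fun g g0 => by_contra fun e => hc ⟨g, g0, by omega⟩
  obtain ⟨x, hx⟩ := card_pos.1 (lt_of_lt_of_le two_pos g1)
  obtain ⟨x1, x2⟩ := mem_inter.1 hx
  have g2 := h g (by simpa using K.sub_mem (hX.1 _ x1) (hX.1 _ (mem_sh.1 x2))) g1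
  let H : AddSubgroup G :=
    { carrier := {g | ∀ y, y - g ∈ X ↔ y ∈ X}
      zero_mem' := fun y => by rw [sub_zero]
      add_mem' := fun {a b} ha hb y => by rw [← sub_sub, hb, ha]
      neg_mem' := fun {a} ha y => by rw [← ha, sub_neg_eq_add, add_sub_cancel_right] }
  have k : ∀ g, sh X g = X → g ∈ H := fun g e y => by rw [← mem_sh, e]
  have g3 : ∀ y ∈ X, y + g ∈ X := fun y hy => (k g g2 _).1 (by rwa [add_sub_cancel_right])
  refine ⟨H, x, fun e => g0 (AddSubgroup.mem_bot.1 (e ▸ k g g2)), ?_⟩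
  ext y
  rw [mem_cos]
  refine ⟨fun hy => k _ (h _ (K.sub_mem (hX.1 y hy) (hX.1 x x1)) ?_),
    fun hy => (hy y).1 (by rwa [sub_sub_cancel])⟩
  refine one_lt_card.2 ⟨y, mem_inter.2 ⟨hy, mem_sh.2 (by rwa [sub_sub_cancel])⟩, y + g,
    mem_inter.2 ⟨g3 y hy, mem_sh.2 ?_⟩, fun e => g0 (left_eq_add.1 e)⟩
  rw [show y + g - (y - x) = x + g by abel]
  exact g3 x x1

end Pool.Agent.MP_ed46bc_co.SC
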