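import Pool.Agent.MP_ed46bc_co.SC.Spec

/-! Row CRIT: a critical pair for the complement of a ball. -/

namespace Pool.Agent.MP_ed46bc_co.SC

open Finset Pool.Agent.MP_ed46bc_co.SP
open scoped symmDiff Pointwise

universe u

variable {G : Type u} [AddCommGroup G] [Fintype G] [DecidableEq G]

/-- The ball of radius `r`. -/
def critB (W : Finset G) (r : ℕ) : Finset G := univ.filter fun x => dl W x ≤ r

lemma crit_mem {W : Finset G} {r : ℕ} {x : G} : x ∈ critB W r ↔ dl W x ≤ r := by simp [critB]

omit [DecidableEq G] in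
lemma crit_half (hn : Odd (Fintype.card G)) {H : AddSubgroup G} {x : G} (h : x + x ∈ H) :
    x ∈ H := by
  obtain ⟨m, hm⟩ := hn
  have h0 : Fintype.card G • x = 0 := card_nsmul_eq_zero
  rw [hm, add_nsmul, one_nsmul, mul_nsmul, two_nsmul] at h0
  rw [eq_neg_of_add_eq_zero_right h0]
  exact H.neg_mem (H.nsmul_mem h m)

lemma crit_three (hn : Odd (Fintype.card G)) {H : AddSubgroup G} {P : Finset G} (hP : Per H P)
    {x : G} (h0 : (0 : G) ∈ P) (h1 : x ∈ P) (h2 : -x ∈ P) (hx : x ∉ H) :
    3 * Nat.card H ≤ P.card := by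
  have d : ∀ a b : G, a - b ∉ H → Disjoint (cos H a) (cos H b) := fun a b hab =>
    disjoint_left.2 fun y ha hb => hab (by
      simpa using H.sub_mem (mem_cos.1 hb) (mem_cos.1 ha))
  have := card_le_card (union_subset (union_subset (cos_subset hP h0) (cos_subset hP h1))
    (cos_subset hP h2))
  rw [card_union_of_disjoint (disjoint_union_left.2 ⟨d _ _ (by simpa using hx),
    d _ _ fun h => hx (crit_half hn (by simpa using h))⟩),
    card_union_of_disjoint (d _ _ (by simpa using hx)), card_cos, card_cos, card_cos] at this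
  omega

lemma crit_sum {W : Finset G} {h : ℕ} (hB : Ball W h) (hs : ∑ x ∈ W, dl W x = h * (h + 1)) :
    ∑ r ∈ range (h + 1), (critB W r).card = (h + 1) * (h + 1) := by
  obtain ⟨-, hc, hm⟩ := hB
  have e1 : ∑ r ∈ range (h + 1), (critB W r).card =
      ∑ x ∈ W, ((range (h + 1)).filter fun r => dl W x ≤ r).card := by
    simp only [card_filter]
    rw [sum_comm]
    refine sum_congr rfl fun r hr => ?_
    rw [← card_filter]
    refine congrArg card (ext fun x => ?_)
    rw [crit_mem, mem_filter, hm]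
    have := mem_range.1 hr
    omega
  have e2 : ∑ x ∈ W, (((range (h + 1)).filter fun r => dl W x ≤ r).card + dl W x) =
      ∑ _x ∈ W, (h + 1) := sum_congr rfl fun x hx => by
    have e : ((range (h + 1)).filter fun r => dl W x ≤ r) = Ico (dl W x) (h + 1) :=
      ext fun r => by rw [mem_filter, mem_range, mem_Ico, and_comm]
    have := (hm x).1 hx
    rw [e, Nat.card_Ico]
    omega
  rw [sum_add_distrib, ← e1, hs, sum_const, hc, smul_eq_mul] at e2
  nlinarith

theorem crit (hD : DL.{u}) (hO : OR.{u}) : CRIT.{u} := by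
  intro G _ _ _ W h hn hB hs hG hgen hNI h2 h3
  obtain ⟨d0, dn, da, -, -, dsum, -⟩ := hD G W
  have hsum := crit_sum hB hs
  obtain ⟨hng, hc, hm⟩ := hB
  have z0 : ∀ r, (0 : G) ∈ critB W r := fun r => crit_mem.2 (by omega)
  have p0 : ∀ r, 1 ≤ (critB W r).card := fun r => card_pos.2 ⟨0, z0 r⟩
  have dab : ∀ a b, dl W (-a - b) ≤ dl W a + dl W b := fun a b => by
    rw [← neg_add', dn]; exact da a b
  have eW : critB W h = W := ext fun x => by rw [crit_mem, hm]
  have hle : ∀ r ∈ range (h + 1), (critB W r).card + (critB W (h - r)).card ≤ 2 * h + 2 := by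
    intro r hr
    have hr' := mem_range.1 hr
    by_contra hlt
    obtain ⟨H, P₁, P₂, P₃, hH, q1, q2, q3, s1, s2, s3, e, l⟩ := hO G (critB W r) (critB W (h - r)) W
      (fun a ha b hb => (hm _).2 (by
        have := dab a b
        have := crit_mem.1 ha
        have := crit_mem.1 hb
        omega)) (by omega)
    have a1 := per_le q1 ⟨0, s1 (z0 _)⟩
    have a2 := per_le q2 ⟨0, s2 (z0 _)⟩
    have a3 := card_sub_pos H
    have := hNI H P₃ hH q3 s3 (card_pos.1 (by omega))
    omega
  have heq : ∀ r ≤ h, (critB W r).card + (critB W (h - r)).card = 2 * h + 2 := by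
    intro r hr
    refine (sum_eq_sum_iff_of_le hle).1 ?_ r (mem_range.2 (by omega))
    have e := sum_range_reflect (fun r => (critB W r).card) (h + 1)
    simp only [Nat.add_sub_cancel] at e
    rw [sum_add_distrib, e, hsum, sum_const, card_range, smul_eq_mul]
    ring
  have cW := card_add_card_compl W
  have ex : ∃ r, 2 ≤ (critB W r).card := ⟨h, by rw [eW]; omega⟩
  obtain ⟨r, hr, hmin⟩ : ∃ r, 2 ≤ (critB W r).card ∧ ∀ r' < r, ¬ 2 ≤ (critB W r').card :=
    ⟨Nat.find ex, Nat.find_spec ex, fun _ => Nat.find_min ex⟩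
  have rh : r ≤ h := not_lt.1 fun hl => hmin h hl (by rw [eW]; omega)
  have e1 := heq r rh
  by_cases hA : 2 ≤ (critB W (h - r)).card
  · have hsub : Wᶜ + critB W r ⊆ (critB W (h - r))ᶜ := by
      intro z hz
      obtain ⟨s, hs, y, hy, rfl⟩ := mem_add.1 hz
      refine mem_compl.2 fun hz' => mem_compl.1 hs ((hm s).2 ?_)
      have := da (s + y) (-y)
      rw [add_neg_cancel_right, dn] at this
      have := crit_mem.1 hy
      have := crit_mem.1 hz'
      omega
    have := card_le_card hsub
    have := card_add_card_compl (critB W (h - r))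
    exact ⟨critB W r, hr, by omega, by omega⟩
  have r1 : 1 ≤ r := by
    by_contra h0
    obtain rfl : r = 0 := by omega
    rw [Nat.sub_zero, eW] at e1
    omega
  have hr2 : 2 * r ≤ h + 1 := by
    have a1 := heq (r - 1) (by omega)
    have a2 := hmin (r - 1) (by omega)
    by_contra hl
    have := hmin (h - (r - 1)) (by omega)
    omega
  have eR : critB W r = W := eq_of_subset_of_card_le
    (fun x hx => (hm x).2 ((crit_mem.1 hx).trans rh)) (by have := p0 (h - r); omega)
  have hC : (critB W (h + 1) \ W).card ≤ h + 1 := by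
    have a1 : ∑ x ∈ Wᶜ, ((W.card : ℤ) - dl W x) = h * (h + 1) := by
      have := sum_add_sum_compl W fun x => (W.card : ℤ) - dl W x
      rw [dsum, sum_sub_distrib, sum_const, nsmul_eq_mul, ← Nat.cast_sum, hs] at this
      push_cast at this
      linarith
    have a2 : ∑ x ∈ critB W (h + 1) \ W, ((W.card : ℤ) - dl W x) ≤ h * (h + 1) := by
      rw [← a1]
      refine sum_le_sum_of_subset_of_nonneg (fun x hx => mem_compl.2 (mem_sdiff.1 hx).2)
        fun x _ _ => ?_
      have : dl W x ≤ W.card := card_le_card sdiff_subset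
      omega
    have a3 : (critB W (h + 1) \ W).card • (h : ℤ) ≤ _ := card_nsmul_le_sum _ _ _ fun x hx => by
      have := crit_mem.1 (mem_sdiff.1 hx).1
      show (h : ℤ) ≤ (W.card : ℤ) - dl W x
      omega
    have a4 := a3.trans a2
    rw [nsmul_eq_mul, mul_comm] at a4
    exact_mod_cast le_of_mul_le_mul_left a4 (by omega)
  have hC' := card_le_card_sdiff_add_card (s := critB W (h + 1)) (t := W)
  obtain ⟨H, P₁, P₂, P₃, hH, q1, q2, q3, s1, s2, s3, e, l⟩ := hO G W W (critB W (h + 1))
    (fun a ha b hb => crit_mem.2 (by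
      have := dab a b
      have := crit_mem.1 (eR.symm ▸ ha)
      have := crit_mem.1 (eR.symm ▸ hb)
      omega)) (by omega)
  obtain rfl : P₁ = P₂ := per_eq q1 q2 (by
    have a1 := card_symmDiff_eq P₁ P₂
    have a2 := card_le_card (sdiff_subset_sdiff (Subset.refl P₁) s2)
    have a3 := card_le_card (sdiff_subset_sdiff (Subset.refl P₂) s1)
    omega)
  have c1 := card_le_card s1
  have c3 := card_le_card s3
  have w0 : (0 : G) ∈ W := eW ▸ z0 h
  obtain rfl : H = ⊤ := hgen H fun x hx => by
    by_contra hxH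
    have := crit_three hn q1 (s1 w0) (s1 hx) (s1 (mem_ng.1 (hng.symm ▸ hx))) hxH
    omega
  have k1 := per_le q1 ⟨0, s1 w0⟩
  rw [AddSubgroup.card_top, Nat.card_eq_fintype_card] at e k1
  have cS : Wᶜ.card = h + 1 := by omega
  have hT : T Wᶜ Wᶜ W = (Wᶜ ×ˢ Wᶜ).card := by
    have := (Gam_compl12 W W W).trans hG
    unfold Gam at this
    rw [cS, hc] at this
    rw [card_product, cS]
    push_cast at this ⊢
    nlinarith
  rw [T_eq_card, Nat.cast_inj, card_filter_eq_iff] at hT
  have hsub : Wᶜ + Wᶜ ⊆ W := by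
    intro z hz
    obtain ⟨a, ha, b, hb, rfl⟩ := mem_add.1 hz
    have := hT (a, b) (mem_product.2 ⟨ha, hb⟩)
    rw [← hng, mem_ng, neg_add']
    exact this
  have := card_le_card hsub
  exact ⟨Wᶜ, by omega, by omega, by omega⟩

end Pool.Agent.MP_ed46bc_co.SC
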