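import Pool.Agent.MP_ed46bc_co.SC.Spec

/-! Row CYC: a critical pair makes the group cyclic. -/

namespace Pool.Agent.MP_ed46bc_co.SC

open Finset Pool.Agent.MP_ed46bc_co.SP
open scoped Pointwise

universe u

section

variable {G : Type u} [AddCommGroup G] [Fintype G] [DecidableEq G]

lemma cyc_sh (X S : Finset G) (e : G) : S + sh X e = sh (X + S) e := by
  ext z
  simp only [mem_add, mem_sh]
  constructor
  · rintro ⟨s, hs, y, hy, rfl⟩
    exact ⟨_, hy, s, hs, by abel⟩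
  · rintro ⟨y, hy, s, hs, h⟩
    exact ⟨s, hs, y + e, by rwa [add_sub_cancel_right], by rw [← sub_add_cancel z e, ← h]; abel⟩

lemma cyc_sid {X : Finset G} (h : Sid X) (e : G) : Sid (sh X e) := fun g hg => by
  have : sh X e ∩ sh (sh X e) g = sh (X ∩ sh X g) e := by
    ext z
    simp only [mem_inter, mem_sh, sub_right_comm z g e]
  rw [this, card_sh]
  exact h g hg

lemma cyc_cos {W Y : Finset G} (hN : NI W) {H : AddSubgroup G} (hH : H ≠ ⊥)
    (hY : ∀ y, y ∈ Y ↔ y ∈ H) (h1 : (Wᶜ + Y).card + 1 ≤ Wᶜ.card + Nat.card H)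
    (h2 : (Wᶜ + Y).card + 2 ≤ Fintype.card G) : False := by
  have hs : Wᶜ ⊆ Wᶜ + Y := subset_add_left _ ((hY 0).2 H.zero_mem)
  have hp : Per H (Wᶜ + Y) := fun z hz k hk => by
    obtain ⟨s, hs, y, hy, rfl⟩ := mem_add.1 hz
    rw [add_assoc]
    exact add_mem_add hs ((hY _).2 (H.add_mem ((hY y).1 hy) hk))
  have h3 := hN H (Wᶜ + Y)ᶜ hH (per_compl hp) (compl_le_iff_compl_le.1 hs)
    (card_pos.1 (by rw [card_compl]; omega))
  have e : W \ (Wᶜ + Y)ᶜ = (Wᶜ + Y) \ Wᶜ := by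
    ext z
    simp only [mem_sdiff, mem_compl, not_not, and_comm]
  rw [e, card_sdiff_of_subset hs] at h3
  have := card_le_card hs
  omega

end

theorem cyc (hA : ATOM.{u}) (hS : SID.{u}) (hT : TWO.{u}) : CYC.{u} := by
  intro G _ _ _ W Y hG h0 hN hc hY h1 h2
  have hn : Nat.card (⊤ : AddSubgroup G) = Fintype.card G := by
    rw [AddSubgroup.card_top, Nat.card_eq_fintype_card]
  obtain ⟨X, -, x2, x3, x4, x5⟩ := hA G ⊤ Wᶜ Y (fun _ _ => trivial) (card_pos.1 (by omega))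
    (fun _ _ => trivial) hY (by rw [hn, add_comm Y]; exact h2)
  rw [add_comm Y] at x4
  rw [hn] at x3
  have e : ∀ x : G, (Wᶜ + sh X (-x)).card = (X + Wᶜ).card := fun x => by rw [cyc_sh, card_sh]
  rcases x5 with x5 | ⟨H, x, hH, hX⟩
  · obtain ⟨x, hx⟩ := card_pos.1 (by omega : 0 < X.card)
    have e1 := e x
    have e2 := card_sh X (-x)
    have s1 := cyc_sid x5 (-x)
    have z0 : (0 : G) ∈ sh X (-x) := by simpa using hx
    generalize sh X (-x) = Z at e1 e2 s1 z0
    have k1 : ∀ y ∈ Z, y ∈ AddSubgroup.closure (Z : Set G) := fun y hy =>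
      AddSubgroup.subset_closure hy
    have k2 : ∀ H : AddSubgroup G, (∀ y ∈ Z, y ∈ H) → AddSubgroup.closure (Z : Set G) ≤ H :=
      fun H h => (AddSubgroup.closure_le H).2 h
    have hK := hT G _ W Z hG h0 hN s1 z0 k1 k2 (by omega) (by omega) (by omega)
    rw [hK] at k1 k2
    by_cases h3 : 3 ≤ Z.card
    · have := hS G ⊤ Z s1 z0 k1 k2 h3 Wᶜ (fun _ _ => trivial) hc (by omega)
      omega
    · obtain ⟨d, hd⟩ := card_eq_one.1 (by rw [card_erase_of_mem z0]; omega : (Z.erase 0).card = 1)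
      refine ⟨d, fun y => k2 _ (fun z hz => ?_) trivial⟩
      by_cases h : z = 0
      · exact h ▸ AddSubgroup.zero_mem _
      · rw [mem_singleton.1 (hd ▸ mem_erase.2 ⟨h, hz⟩ : z ∈ ({d} : Finset G))]
        exact AddSubgroup.mem_zmultiples d
  · have e2 : X.card = Nat.card H := hX ▸ card_cos H x
    have e1 := e x
    exact (cyc_cos (Y := sh X (-x)) hN hH (fun y => by simp [hX]) (by omega) (by omega)).elim

end Pool.Agent.MP_ed46bc_co.SC
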