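import Pool.Agent.MP_ed46bc_co.SC.Spec
import Pool.Agent.MP_ed46bc_co.SP.U

/-! # Rows DL, BALL and TR -/

namespace Pool.Agent.MP_ed46bc_co.SC

open Finset Pool.Agent.MP_ed46bc_co.SP
open scoped symmDiff

universe u

section

variable {G : Type u} [AddCommGroup G] [Fintype G] [DecidableEq G]

lemma dl_sh (X Y : Finset G) (e : G) : (sh X e \ sh Y e).card = (X \ Y).card := by
  rw [← card_sh (X \ Y) e]
  congr 1
  ext x
  simp

lemma dl_two (W : Finset G) (x : G) : (W ∆ sh W x).card = 2 * dl W x := by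
  have h1 := card_symmDiff_eq W (sh W x)
  have h2 := card_sdiff_int W (sh W x)
  rw [card_sh] at h2
  unfold dl
  omega

lemma dl_neg (W : Finset G) (x : G) : dl W (-x) = dl W x := by
  have h1 := dl_sh W (sh W (-x)) x
  rw [sh_neg_sh] at h1
  have h2 := card_sdiff_int W (sh W x)
  rw [card_sh] at h2
  unfold dl
  omega

lemma dl_add (W : Finset G) (x y : G) : dl W (x + y) ≤ dl W x + dl W y := by
  have h1 := dl_sh W (sh W y) x
  unfold dl
  rw [← h1]
  refine le_trans (card_le_card fun z hz => ?_) (card_union_le _ _)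
  simp only [mem_sdiff, mem_sh, mem_union, sub_sub] at hz ⊢
  tauto

lemma dl_L (W : Finset G) (x : G) : L W (ng W) x = (W.card : ℤ) - dl W x := by
  rw [← dl_neg, L_eq_card]
  have h1 := card_sdiff_add_card_inter W (sh W (-x))
  have h2 : (W.filter fun y => -x - y ∈ ng W) = W ∩ sh W (-x) := by
    ext y
    simp [add_comm]
  rw [h2]
  unfold dl
  omega

end

theorem dl_thm : DL.{u} := by
  intro G _ _ _ W
  refine ⟨?_, dl_neg W, dl_add W, dl_L W, fun K V hV y hy => ?_, ?_, fun ho hs => ?_⟩
  · have : sh W 0 = W := by ext x; simp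
    simp [dl, this]
  · have e : sh V y = V := by
      ext x
      rw [mem_sh]
      exact hV.mem_iff (by simpa using hy)
    have h1 := card_symmDiff_tri W V (sh W y)
    have h2 : (V ∆ sh W y).card = (W ∆ V).card := by
      rw [← card_sh (W ∆ V) y, sh_symmDiff, e, symmDiff_comm]
    have h3 := dl_two W y
    omega
  · have h1 := T_eq_sum_L univ W (ng W)
    have h2 := T_compl1 ∅ W (ng W)
    rw [compl_empty, T_eq_sum_L ∅, card_ng] at h2
    simp only [dl_L] at h1
    rw [← h1, h2]
    simp [sq]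
  · have key : Even (W.erase 0).card := by
      have z : ∑ _x ∈ W.erase 0, (1 : ZMod 2) = 0 := by
        refine sum_involution (fun x _ => -x) (fun _ _ => by decide) (fun x hx _ c => ?_)
          (fun x hx => ?_) fun x _ => neg_neg x
        · have c1 : addOrderOf x ∣ 2 := addOrderOf_dvd_of_nsmul_eq_zero (by
            rw [two_nsmul]; exact add_eq_zero_iff_eq_neg.2 c.symm)
          have c2 : addOrderOf x ∣ Fintype.card G := addOrderOf_dvd_card
          have c3 := Nat.dvd_gcd c1 c2
          rw [Nat.Coprime.gcd_eq_one (Nat.coprime_two_left.2 ho)] at c3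
          exact (mem_erase.1 hx).1 (AddMonoid.addOrderOf_eq_one_iff.1 (Nat.dvd_one.1 c3))
        · refine mem_erase.2 ⟨neg_ne_zero.2 (mem_erase.1 hx).1, ?_⟩
          rw [← mem_ng, hs]
          exact (mem_erase.1 hx).2
      rw [sum_const, nsmul_eq_mul, mul_one] at z
      exact ZMod.natCast_eq_zero_iff_even.1 z
    rw [Nat.even_iff] at key
    rw [Nat.odd_iff]
    by_cases h0 : (0 : G) ∈ W
    · have := card_erase_add_one h0
      exact iff_of_true h0 (by omega)
    · rw [erase_eq_of_notMem h0] at key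
      exact iff_of_false h0 (by omega)

theorem ball (hS : SS.{u}) : BALL.{u} := by
  intro G _ _ _ W prim g1
  obtain ⟨h, hh⟩ : Odd W.card := by
    obtain ⟨t, e⟩ := Gam_mod W W (ng W)
    rw [card_ng, g1] at e
    rcases Nat.even_or_odd W.card with ⟨r, hr⟩ | h
    · rw [hr] at e
      push_cast at e
      have : (1 : ℤ) = 4 * (9 * r * r + t) := by rw [e]; ring
      omega
    · exact h
  have hh' : (W.card : ℤ) = 2 * h + 1 := by exact_mod_cast hh
  have e0 : ∀ x, 0 ≤ ex W W (ng W) x := by
    intro x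
    have a1 := U_near W W (ng W) (W ∆ {x}) W (ng W) (hS G _ _ _) prim (by
      unfold sig; rw [U_flip_dist]; simp)
    have a2 := Gam_flip W W (ng W) x
    have a3 : ∃ e : ℤ, ex W W (ng W) x = 4 * e := by
      unfold ex
      rw [card_ng, hh']
      split_ifs
      · exact ⟨L W (ng W) x - h - 1, by ring⟩
      · exact ⟨h - L W (ng W) x, by ring⟩
    obtain ⟨e, he⟩ := a3
    omega
  have mem : ∀ x, x ∈ W ↔ dl W x ≤ h := by
    intro x
    have a := e0 x
    unfold ex at a
    rw [card_ng, dl_L, hh'] at a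
    by_cases c : x ∈ W
    · rw [if_pos c] at a
      exact iff_of_true c (by omega)
    · rw [if_neg c] at a
      exact iff_of_false c (by omega)
  refine ⟨h, ⟨?_, hh, mem⟩, ?_, ?_⟩
  · ext x
    rw [mem_ng, mem, mem, dl_neg]
  · have a1 := T_eq_sum_L W W (ng W)
    simp only [dl_L, sum_sub_distrib, sum_const, nsmul_eq_mul] at a1
    unfold Gam at g1
    rw [card_ng, a1, hh'] at g1
    have : ((∑ x ∈ W, dl W x : ℕ) : ℤ) = h * (h + 1) := by
      push_cast
      linarith
    exact_mod_cast this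
  · have cw := card_le_univ W
    by_cases c : (⊤ : AddSubgroup G) = ⊥
    · have : Nat.card (⊤ : AddSubgroup G) = 1 := by rw [c, AddSubgroup.card_bot]
      rw [AddSubgroup.card_top, Nat.card_eq_fintype_card] at this
      omega
    · right
      by_contra d
      refine prim ⟨⊤, univ, univ, univ, c, ⟨per_univ _, per_univ _, per_univ _, 3, by decide, ?_⟩,
        ?_⟩
      · rw [AddSubgroup.card_top, Nat.card_eq_fintype_card, card_univ]; ring
      · have e : ∀ X : Finset G, (X ∆ univ).card = Fintype.card G - X.card := fun X => by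
          rw [← card_compl]
          congr 1
          ext x
          simp [mem_symmDiff]
        simp only [Psi, sig, e, card_ng, AddSubgroup.card_top, Nat.card_eq_fintype_card]
        omega

theorem tr : TR.{u} := by
  intro G _ _ _ K _ _ _ φ hφ B
  have hn : ng (B.map ⟨φ, hφ⟩) = (ng B).map ⟨φ, hφ⟩ := by
    ext x
    simp only [mem_ng, mem_map, Function.Embedding.coeFn_mk]
    exact ⟨fun ⟨y, h1, h2⟩ => ⟨-y, by simpa using h1, by simp [h2]⟩,
      fun ⟨y, h1, h2⟩ => ⟨-y, h1, by simp [h2]⟩⟩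
  rw [hn]
  constructor
  · have hT : T (B.map ⟨φ, hφ⟩) (B.map ⟨φ, hφ⟩) ((ng B).map ⟨φ, hφ⟩) = T B B (ng B) := by
      rw [T_eq_sum_L, T_eq_sum_L, sum_map]
      refine sum_congr rfl fun x _ => ?_
      rw [L_eq_card, L_eq_card, filter_map, card_map]
      congr 2
      refine filter_congr fun y _ => ?_
      have e : -φ x - φ y = φ (-x - y) := by simp
      simp only [Function.Embedding.coeFn_mk, Function.comp, e]
      exact mem_map' ⟨φ, hφ⟩
    unfold Gam
    rw [hT, card_map, card_map]
  · rintro ⟨H, P₁, P₂, P₃, h0, ⟨p1, p2, p3, t, ht, e⟩, hp⟩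
    have pm : ∀ P : Finset K, Per H P → Per (H.map φ) (P.map ⟨φ, hφ⟩) := by
      rintro P hP x hx _ ⟨y, hy, rfl⟩
      obtain ⟨z, hz, rfl⟩ := mem_map.1 hx
      exact mem_map.2 ⟨z + y, hP z hz y hy, by simp⟩
    have cm : Nat.card (H.map φ) = Nat.card H := AddSubgroup.card_map_of_injective hφ
    have sm : ∀ X P : Finset K, (X.map ⟨φ, hφ⟩ ∆ P.map ⟨φ, hφ⟩).card = (X ∆ P).card := by
      intro X P
      rw [card_symmDiff_eq, card_symmDiff_eq, ← Finset.map_sdiff, ← Finset.map_sdiff, card_map, card_map]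
    refine ⟨H.map φ, _, _, _, ne_bot_of_two_le (cm ▸ two_le_of_ne_bot h0),
      ⟨pm _ p1, pm _ p2, pm _ p3, t, ht, by rw [card_map, card_map, card_map, cm, e]⟩, ?_⟩
    simpa only [Psi, sig, sm, cm] using hp

end Pool.Agent.MP_ed46bc_co.SC
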