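import Pool.Agent.MP_ed46bc_co.SC.Spec

/-! # Row INV: the inverse theorem -/

namespace Pool.Agent.MP_ed46bc_co.SC

open Finset Pool.Agent.MP_ed46bc_co.SP
open scoped symmDiff

universe u

lemma inv_gen (hD : DL.{u}) (hB : BALL.{u}) (hN : NIS.{u}) (hC : CRIT.{u}) (hY : CYC.{u})
    (G : Type u) [AddCommGroup G] [Fintype G] [DecidableEq G] (W : Finset G)
    (ho : Odd (Fintype.card G)) (prim : ¬ HasSt W W (ng W)) (g1 : Gam W W (ng W) = 1)
    (gen : Gen W) : ∃ d : G, ∀ w ∈ W, w ∈ AddSubgroup.zmultiples d := by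
  obtain ⟨h, ball, hs, hw⟩ := hB G W prim g1
  have h0 : (0 : G) ∈ W := (ball.2.2 0).2 (by rw [(hD G W).1]; omega)
  have sy : ∀ x, x ∈ W → -x ∈ W := fun x hx => by rw [← mem_ng, ball.1]; exact hx
  have hc := ball.2.1
  rcases Nat.lt_or_ge h 2 with h2 | h2
  · by_cases e : ∃ x ∈ W, x ≠ 0
    swap
    · push Not at e
      exact ⟨0, fun w hw => by rw [e w hw]; exact AddSubgroup.zero_mem _⟩
    obtain ⟨x, hx, x0⟩ := e
    have x2 : x ≠ -x := by
      intro c
      have c1 : addOrderOf x ∣ 2 := addOrderOf_dvd_of_nsmul_eq_zero (by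
        rw [two_nsmul]; exact add_eq_zero_iff_eq_neg.2 c)
      have c2 : addOrderOf x ∣ Fintype.card G := addOrderOf_dvd_card
      have c3 : addOrderOf x ∣ 1 := by
        have := Nat.dvd_gcd c1 c2
        rwa [Nat.Coprime.gcd_eq_one (Nat.coprime_two_left.2 ho)] at this
      exact x0 (AddMonoid.addOrderOf_eq_one_iff.1 (Nat.dvd_one.1 c3))
    have sub : ({0, x, -x} : Finset G) ⊆ W := by
      intro y hy
      simp only [mem_insert, mem_singleton] at hy
      rcases hy with rfl | rfl | rfl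
      exacts [h0, hx, sy _ hx]
    have c3 : ({0, x, -x} : Finset G).card = 3 :=
      card_eq_three.2 ⟨0, x, -x, x0.symm, (neg_ne_zero.2 x0).symm, x2, rfl⟩
    have e : ({0, x, -x} : Finset G) = W := eq_of_subset_of_card_le sub (by omega)
    refine ⟨x, fun w hw => ?_⟩
    rw [← e] at hw
    simp only [mem_insert, mem_singleton] at hw
    rcases hw with rfl | rfl | rfl
    · exact AddSubgroup.zero_mem _
    · exact AddSubgroup.mem_zmultiples _
    · exact AddSubgroup.neg_mem _ (AddSubgroup.mem_zmultiples _)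
  · have hw' : 3 * W.card < 2 * Fintype.card G := by omega
    rw [ball.1] at prim g1
    have ni := hN G W h ho ball prim g1 gen hw'
    obtain ⟨Y, y1, y2, y3⟩ := hC G W h ho ball hs g1 gen ni h2 hw'
    obtain ⟨d, hd⟩ := hY G W Y gen h0 ni (by rw [card_compl]; omega) y1 y2 y3
    exact ⟨d, fun w _ => hd w⟩

theorem inv (hD : DL.{u}) (hB : BALL.{u}) (hN : NIS.{u}) (hC : CRIT.{u}) (hY : CYC.{u})
    (hT : TR.{u}) : INV.{u} := by
  intro G _ _ _ W ho prim g1
  classical
  let K : AddSubgroup G := AddSubgroup.closure (W : Set G)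
  have hK : ∀ w ∈ W, w ∈ K := fun w hw => AddSubgroup.subset_closure hw
  let B : Finset K := univ.filter fun x => (x : G) ∈ W
  have hBW : B.map ⟨K.subtype, K.subtype_injective⟩ = W := by
    ext x
    simp only [B, mem_map, mem_filter, mem_univ, true_and, Function.Embedding.coeFn_mk,
      AddSubgroup.coe_subtype]
    exact ⟨fun ⟨y, h1, h2⟩ => h2 ▸ h1, fun h => ⟨⟨x, hK x h⟩, h, rfl⟩⟩
  obtain ⟨t1, t2⟩ := hT G K K.subtype K.subtype_injective B
  rw [hBW] at t1 t2
  have oK : Odd (Fintype.card K) := by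
    have := card_sub_dvd K
    rw [Nat.card_eq_fintype_card] at this
    exact Odd.of_dvd_nat ho this
  have gen : Gen B := by
    intro H hH
    rw [eq_top_iff]
    intro x _
    have : K ≤ H.map K.subtype := by
      refine (AddSubgroup.closure_le _).2 fun w hw => ?_
      exact ⟨⟨w, hK w hw⟩, hH _ (by simpa [B] using hw), rfl⟩
    obtain ⟨y, hy, e⟩ := this x.2
    have : y = x := Subtype.ext e
    exact this ▸ hy
  obtain ⟨d, hd⟩ := inv_gen hD hB hN hC hY K B oK (fun c => prim (t2 c)) (t1 ▸ g1) gen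
  refine ⟨d, fun w hw => ?_⟩
  obtain ⟨z, hz⟩ := AddSubgroup.mem_zmultiples_iff.1 (hd ⟨w, hK w hw⟩ (by simpa [B] using hw))
  exact AddSubgroup.mem_zmultiples_iff.2 ⟨z, by simpa using congrArg Subtype.val hz⟩

end Pool.Agent.MP_ed46bc_co.SC
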