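import Pool.Agent.MP_ed46bc_co.SC.Spec

/-! # Row MAINA: the main inequality -/

namespace Pool.Agent.MP_ed46bc_co.SC

open Finset Pool.Agent.MP_ed46bc_co.SP
open scoped symmDiff

universe u

lemma ma_ar0 (k α β a : ℤ) (hα : 0 ≤ α) (hβ : 0 ≤ β) (h1 : α + β < k) (h2 : k ≤ 3 * (α + β))
    (ha : 0 ≤ a) :
    8 * k ^ 2 - 48 * k * (α + β) + 40 * (α + β) ^ 2 - 96 * (α * β)
      - a * (8 * k ^ 2 - 6 * k * (α + β)) ≤ 0 := by
  have e1 : 0 ≤ a * (k * (8 * k - 6 * (α + β))) :=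
    mul_nonneg ha (mul_nonneg (by omega) (by omega))
  have e2 : 0 ≤ (k - (α + β)) * (5 * (α + β) - k) := mul_nonneg (by omega) (by omega)
  have e3 := mul_nonneg hα hβ
  nlinarith

lemma ma_ar1 (k α β : ℤ) (hα : 0 ≤ α) (hβ : 0 ≤ β) (h1 : α + β < k) (h2 : k ≤ 3 * (α + β))
    (h3 : 3 * α < k + 3 * β) :
    k ^ 2 - 6 * k * (α + β) + 5 * (α + β) ^ 2 + 4 * α ^ 2 - 12 * (α * β) ≤ 0 := by
  have e3 := mul_nonneg hα hβ
  rcases le_total (2 * β) α with h | h
  · have e1 : (3 * (α + β) - k) ^ 2 ≤ (6 * β) ^ 2 := pow_le_pow_left₀ (by omega) (by omega) 2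
    have e2 : 0 ≤ β * (α - 2 * β) := mul_nonneg hβ (by omega)
    nlinarith
  · have e1 : (3 * (α + β) - k) ^ 2 ≤ (2 * (α + β)) ^ 2 := pow_le_pow_left₀ (by omega) (by omega) 2
    have e2 : 0 ≤ α * (2 * β - α) := mul_nonneg hα (by omega)
    nlinarith

lemma ma_ar2 (k α β a : ℤ) (hα : 0 ≤ α) (hβ : 0 ≤ β) (h1 : α + β < k)
    (h3 : 3 * α < k + 3 * β) (ha : 4 ≤ a) :
    8 * k ^ 2 - 48 * k * (α + β) + 40 * (α + β) ^ 2 - 96 * (α * β) + 32 * α ^ 2
      + 8 * α * (6 * k - 4 * (α + β)) - a * (8 * k ^ 2 - 6 * k * (α + β)) ≤ 0 := by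
  have e1 : 0 ≤ (a - 4) * (k * (8 * k - 6 * (α + β))) :=
    mul_nonneg (by omega) (mul_nonneg (by omega) (by omega))
  have p0 : 0 ≤ k - α - β := by omega
  have r0 : 0 ≤ k + 3 * β - 3 * α := by omega
  have key : -3 * k ^ 2 - 3 * k * (α + β) + 5 * (α + β) ^ 2 - 16 * (α * β) + 6 * k * α ≤ 0 := by
    nlinarith [mul_nonneg p0 r0, mul_nonneg p0 hα, mul_nonneg p0 hβ, mul_nonneg r0 hα,
      mul_nonneg r0 hβ, mul_nonneg hα hβ, mul_nonneg p0 p0, mul_nonneg r0 r0, mul_nonneg hα hα,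
      mul_nonneg hβ hβ]
  nlinarith

lemma ma_ar (Γ k α β a δ X C : ℤ) (hα : 0 ≤ α) (hβ : 0 ≤ β) (h1 : α + β < k)
    (h2 : k ≤ 3 * (α + β)) (ha : a = 0 ∨ 4 ≤ a) (hδ : δ = 0 ∨ (δ = 8 ∧ 3 * α < k + 3 * β))
    (hU : Γ ≤ k ^ 2 * (1 - a) - 6 * k * (α + β) + 9 * (α + β) ^ 2 - 3 * k * X - 12 * (α * β)
      - 4 * C)
    (hC : (8 - a) * (α + β) ^ 2 - δ * α ^ 2 ≤ 4 * (α + β) * X + 8 * C)
    (hX : -a * (α + β) - δ * α ≤ 4 * X) (h0 : a = 0 → 0 ≤ X) : Γ ≤ 0 := by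
  have e1 : 0 ≤ (4 * X + a * (α + β) + δ * α) * (6 * k - 4 * (α + β)) :=
    mul_nonneg (by linarith) (by omega)
  rcases hδ with rfl | ⟨rfl, h3⟩
  · have := ma_ar0 k α β a hα hβ h1 h2 (by omega)
    nlinarith
  · rcases ha with rfl | ha
    · have := ma_ar1 k α β hα hβ h1 h2 h3
      have e2 : 0 ≤ X * (3 * k - 2 * (α + β)) := mul_nonneg (h0 rfl) (by omega)
      nlinarith
    · have := ma_ar2 k α β a hα hβ h1 h3 ha
      nlinarith

theorem maina (hP : PAIR.{u}) (hU : UPP.{u}) : MAINA.{u} := by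
  intro G _ _ _ Q _ _ _ f W U hf sW sU h0 oU near wU wW nz t1 t2
  have upp := hU G Q f W U hf sW sU
  set V := pre f U with hV
  have mV : ∀ x, x ∈ V ↔ f x ∈ U := fun x => mem_pre
  obtain ⟨r, hr⟩ := oU
  have hr' : (U.card : ℤ) = 2 * r + 1 := by exact_mod_cast hr
  have g1 : Gam U U U ≤ 1 := near U U (by simp) (by simp) ⟨3 * r + 1, by omega⟩ (by omega)
  obtain ⟨g, hg⟩ : ∃ g : ℤ, Gam U U U = 1 - 4 * g := by
    obtain ⟨s, hs⟩ := Gam_mod U U U
    exact ⟨-(s + 9 * r * r + 9 * r + 2), by rw [hs, hr']; ring⟩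
  have e4 : ∀ i, ∃ e : ℤ, ex U U U i = 4 * e := by
    intro i
    unfold ex
    split_ifs
    · exact ⟨L U U i - r - 1, by rw [hr']; ring⟩
    · exact ⟨r - L U U i, by rw [hr']; ring⟩
  set δ : ℤ := if 3 * U.card + 1 = 2 * Fintype.card Q then 8 else 0 with hδ
  have δ0 : 0 ≤ δ := by rw [hδ]; split_ifs <;> norm_num
  have pc : ∀ x ∈ W ∆ V, ∀ y ∈ W ∆ V, 8 - 4 * g - δ * (ind Vᶜ x * ind Vᶜ y) ≤
      2 * ex U U U (f x) + 2 * ex U U U (f y) + 8 * (fr U (f x) (f y) + fr U (f x) (-f y)) := by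
    intro x hx y hy
    obtain ⟨p1, p2, p3⟩ := hP Q U (f x) (f y) sU (nz x hx) (nz y hy)
    obtain ⟨-, q2, q3⟩ := hP Q U (f y) (f x) sU (nz y hy) (nz x hx)
    have pw := Gam_le_w (U ∆ {f x, -f x}) (U ∆ {f y, -f y}) U
    have pn := near (U ∆ {f x, -f x}) (U ∆ {f y, -f y}) p3.le q3.le
    rw [Nat.odd_iff] at pn
    by_cases a1 : f x ∈ U
    · have : ind Vᶜ x = 0 := ind_of_not_mem (by simpa [mV] using a1)
      rw [this]
      rw [if_pos a1] at p2
      have := pn (by split_ifs at q2 <;> omega) (by split_ifs at q2 <;> omega)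
      linarith
    by_cases a2 : f y ∈ U
    · have : ind Vᶜ y = 0 := ind_of_not_mem (by simpa [mV] using a2)
      rw [this]
      rw [if_neg a1] at p2
      rw [if_pos a2] at q2
      have := pn (by omega) (by omega)
      linarith
    rw [ind_of_mem (show x ∈ Vᶜ by simpa [mV] using a1),
      ind_of_mem (show y ∈ Vᶜ by simpa [mV] using a2)]
    rw [if_neg a1] at p2
    rw [if_neg a2] at q2
    by_cases a3 : 3 * U.card + 1 = 2 * Fintype.card Q
    · have d : δ = 8 := by rw [hδ, if_pos a3]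
      have : 2 * (Fintype.card Q : ℤ) - (U ∆ {f x, -f x}).card - (U ∆ {f y, -f y}).card
          - U.card = -3 := by omega
      rw [this] at pw
      linarith
    · have := pn (by omega) (by omega)
      linarith
  have dg : ∀ x ∈ W ∆ V, -(4 * g) - δ * ind Vᶜ x ≤ 4 * ex U U U (f x) := by
    intro x hx
    have p := pc x hx x hx
    have f1 : fr U (f x) (f x) ≤ 1 := by unfold fr; split_ifs <;> norm_num
    have f2 : fr U (f x) (-f x) = 0 := by
      unfold fr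
      refine if_pos (iff_of_true ?_ (by simpa using h0))
      rw [← mem_ng, sU]
    have f3 : ind Vᶜ x * ind Vᶜ x = ind Vᶜ x := by unfold ind; split_ifs <;> norm_num
    rw [f3] at p
    linarith
  have c1 : ((W ∆ V).card : ℤ) = (W \ V).card + (V \ W).card := by
    exact_mod_cast card_symmDiff_eq W V
  have c2 : ∑ x ∈ W ∆ V, ind Vᶜ x = (W \ V).card := by
    unfold ind
    rw [sum_boole]
    congr 2
    ext x
    simp only [mem_filter, mem_symmDiff, mem_compl, mem_sdiff]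
    tauto
  have s1 := sum_le_sum fun x hx => sum_le_sum (pc x hx)
  have s2 := sum_le_sum dg
  simp only [sum_add_distrib, sum_sub_distrib, sum_const, nsmul_eq_mul, ← mul_sum, ← sum_mul,
    c2] at s1 s2
  have c3 := card_sdiff_int W V
  have c4 := card_pre_int hf U
  have c5 : (Fintype.card G : ℤ) = Nat.card f.ker * Fintype.card Q := by exact_mod_cast card_G hf
  refine ma_ar (Gam W W W) (Nat.card f.ker) (W \ V).card (V \ W).card (4 * g) δ
    (∑ x ∈ W ∆ V, ex U U U (f x))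
    (∑ x ∈ W ∆ V, ∑ y ∈ W ∆ V, (fr U (f x) (f y) + fr U (f x) (-f y)))
    (by positivity) (by positivity) (by omega) (by omega) (by omega) ?_ ?_ ?_ ?_ ?_
  · by_cases a3 : 3 * U.card + 1 = 2 * Fintype.card Q
    · refine Or.inr ⟨by rw [hδ, if_pos a3], ?_⟩
      have a4 : 3 * (U.card : ℤ) + 1 = 2 * Fintype.card Q := by exact_mod_cast a3
      have a5 : 3 * (W.card : ℤ) < 2 * Fintype.card G := by exact_mod_cast wW
      have a6 : (Nat.card f.ker : ℤ) * (3 * (U.card : ℤ) + 1) =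
          Nat.card f.ker * (2 * Fintype.card Q) := by rw [a4]
      rw [← hV] at c4
      nlinarith
    · exact Or.inl (by rw [hδ, if_neg a3])
  · rw [← c1]
    rw [hg] at upp
    exact upp
  · rw [← c1]
    simp only [sum_add_distrib]
    nlinarith
  · rw [← c1]
    linarith
  · intro a0
    refine sum_nonneg fun x hx => ?_
    have p := dg x hx
    obtain ⟨e, he⟩ := e4 (f x)
    have : δ * ind Vᶜ x ≤ 8 := by
      have := ind_le_one Vᶜ x
      have : δ ≤ 8 := by rw [hδ]; split_ifs <;> norm_num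
      nlinarith
    omega

end Pool.Agent.MP_ed46bc_co.SC
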