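import Pool.Agent.MP_ed46bc_co.SC.Spec
import Pool.Agent.MP_ed46bc_co.SP.M

/-! # Row MS: the upper bound by admissible values -/

namespace Pool.Agent.MP_ed46bc_co.SC

open Finset Pool.Agent.MP_ed46bc_co.SP
open scoped symmDiff

universe u

theorem ms (h : ACC.{u, u}) (hU : UP.{u}) (hS : SS.{u}) (hZ : ZG.{u}) (hA : ARC.{u})
    (hT : TOP.{u}) : MS.{u} := by
  intro G _ _ _ i B hc h2
  have bn : B.card ≤ Fintype.card G := card_le_univ B
  by_cases st : HasSt B B (ng B)
  swap
  · have g1 : Gam B B (ng B) = 1 := by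
      by_contra c
      exact st (HasSt_of_S (hS G B B (ng B)) (by omega))
    obtain ⟨v, v1, v2⟩ := hA G G (AddMonoidHom.id G) B i B.card 0 hc Function.surjective_id st g1
      bn (by omega) (Or.inl (by rw [card_ker_id]; omega))
    rw [card_ker_id] at v2
    exact ⟨v, v1, by rw [g1]; simpa using v2⟩
  obtain ⟨Q, _, _, _, f, W, W2, W3, ⟨hf, -, odd, prim, g1, good⟩, p1, p2⟩ :=
    hU G (fun Q _ _ _ _ => hS Q) B B (ng B) h2 st
  obtain rfl : W = W2 := m_eq hf (B := B) (by simp only [Psi, sig] at p1; omega)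
  obtain ⟨W3, rfl⟩ : ∃ V, W3 = ng V := ⟨ng W3, by ext; simp [ng]⟩
  simp only [Psi, sig, m_dev, m_ng] at p1 p2
  obtain rfl : W = W3 := m_eq hf (B := B) (by omega)
  rw [m_ng] at odd
  have ow : Odd W.card := by
    rw [Nat.odd_iff] at odd ⊢
    omega
  have cG : Fintype.card G = Fintype.card Q * Nat.card f.ker := by
    simpa [pre] using m_pre hf univ
  have cP := m_pre hf W
  have c1 : (B ∆ pre f W).card = (B \ pre f W).card + (pre f W \ B).card :=
    card_union_of_disjoint disjoint_sdiff_sdiff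
  have c2 := card_sdiff_add_card_inter B (pre f W)
  have c3 := card_sdiff_add_card_inter (pre f W) B
  rw [inter_comm] at c3
  have mp : ∀ x, x ∈ pre f W ↔ f x ∈ W := fun x => by simp [pre]
  have arc := fun s => hA G Q f W i B.card s hc hf prim g1 bn
  generalize hk : Nat.card f.ker = k at *
  have fin : ∀ s : ℕ, s ≤ (B ∆ pre f W).card → ∀ m : ℕ, s ≤ m →
      Gam B B (ng B) ≤ ((k : ℤ) - 3 * (B ∆ pre f W).card) ^ 2 - 4 * (m : ℤ) ^ 2 →
      5 * s ≤ k ∧ Gam B B (ng B) ≤ ((k : ℤ) - s) * ((k : ℤ) - 5 * s) := by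
    intro s d1 m d2 d3
    have d1' : (s : ℤ) ≤ (B ∆ pre f W).card := by exact_mod_cast d1
    have d2' : (s : ℤ) ≤ m := by exact_mod_cast d2
    have d0 : (0 : ℤ) ≤ s := Nat.cast_nonneg s
    have d4 : Gam B B (ng B) ≤ ((k : ℤ) - s) * ((k : ℤ) - 5 * s) := by nlinarith
    refine ⟨?_, d4⟩
    by_contra d5
    have : (k : ℤ) - 5 * s ≤ 0 := by omega
    have := mul_nonpos_of_nonneg_of_nonpos (show (0 : ℤ) ≤ k - s by omega) this
    omega
  rcases le_total (pre f W \ B).card (B \ pre f W).card with a | a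
  · by_cases hz : ∀ x ∈ B \ pre f W, ∀ y ∈ B \ pre f W, ex W W (ng W) (f x) = 0 →
        ex W W (ng W) (f y) = 0 → ex (ng W) W W (-f x) = 0 →
        ¬ ((f x = f y ∧ f x + f x ∈ W) ∨ (f x ≠ f y ∧ f x - f y ∈ W))
    · have := m_gain h hf g1 good (S := B \ pre f W) subset_union_left
        (fun x hx y hy => iff_of_true (mem_sdiff.1 hx).1 (mem_sdiff.1 hy).1) (by omega) hz
      rw [hk] at this
      obtain ⟨d1, d2⟩ := fin ((B \ pre f W).card - (pre f W \ B).card) (by omega) _ (by omega) this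
      obtain ⟨v, v1, v2⟩ := arc _ d1 (Or.inl (by omega))
      exact ⟨v, v1, d2.trans v2⟩
    · push Not at hz
      obtain ⟨x, hx, y, hy, e1, e2, e3, e4⟩ := hz
      have x0 : f x ∉ W := fun c => (mem_sdiff.1 hx).2 ((mp x).2 c)
      have y0 : f y ∉ W := fun c => (mem_sdiff.1 hy).2 ((mp y).2 c)
      rcases hZ Q W prim g1 good _ _ (iff_of_false x0 y0) e1 e2 e3 e4 with b | ⟨-, K, -, -, b⟩
      · exact absurd b.1 x0
      have kd : Nat.card K ∣ Fintype.card Q := by
        rw [← Nat.card_eq_fintype_card]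
        exact AddSubgroup.card_addSubgroup_dvd_card K
      generalize Nat.card K = d at b kd
      obtain ⟨t, rfl⟩ : ∃ t, d = W.card + t := ⟨d - W.card, by omega⟩
      have t1 : (W.card + t + 1) / 3 = t := by omega
      have t2 : k ≤ t * k := Nat.le_mul_of_pos_left k (by omega)
      have t3 : 3 * (W.card * k) + k = 2 * ((W.card + t) * k) := by
        rw [← mul_assoc, ← mul_assoc, ← b]
        ring
      refine ⟨_, (hT G ((W.card + t) * k) B.card (cG ▸ Nat.mul_dvd_mul_right kd k) ?_).2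
        (W.card + t) (dvd_mul_right _ _) (by omega) ?_, p2.trans ?_⟩
      · rw [add_mul]
        omega
      · rw [t1, Nat.mul_div_cancel_left _ (by omega), add_mul]
        omega
      · exact pow_le_pow_left₀ (by omega) (by omega) 2
  · by_cases hz : ∀ x ∈ pre f W \ B, ∀ y ∈ pre f W \ B, ex W W (ng W) (f x) = 0 →
        ex W W (ng W) (f y) = 0 → ex (ng W) W W (-f x) = 0 →
        ¬ ((f x = f y ∧ f x + f x ∈ W) ∨ (f x ≠ f y ∧ f x - f y ∈ W))
    · have := m_gain h hf g1 good (S := pre f W \ B) subset_union_right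
        (fun x hx y hy => iff_of_false (mem_sdiff.1 hx).2 (mem_sdiff.1 hy).2) (by omega) hz
      rw [hk] at this
      obtain ⟨d1, d2⟩ := fin ((pre f W \ B).card - (B \ pre f W).card) (by omega) _ (by omega) this
      obtain ⟨v, v1, v2⟩ := arc _ d1 (Or.inr (by omega))
      exact ⟨v, v1, d2.trans v2⟩
    · push Not at hz
      obtain ⟨x, hx, y, hy, e1, e2, e3, e4⟩ := hz
      have x0 : f x ∈ W := (mp x).1 (mem_sdiff.1 hx).1
      have y0 : f y ∈ W := (mp y).1 (mem_sdiff.1 hy).1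
      rcases hZ Q W prim g1 good _ _ (iff_of_true x0 y0) e1 e2 e3 e4 with ⟨-, b⟩ | b
      swap
      · exact absurd x0 b.1
      have w1 : W.card = 1 := by rw [b, card_singleton]
      rw [w1, one_mul] at cP
      refine ⟨_, (hT G k B.card ⟨_, by rw [cG, mul_comm]⟩ (by omega)).1 i hc (by omega),
        p2.trans ?_⟩
      · rw [← neg_sq (2 * (k : ℤ) - 3 * B.card)]
        exact pow_le_pow_left₀ (by omega) (by omega) 2

end Pool.Agent.MP_ed46bc_co.SC
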