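import Pool.Agent.MP_ed46bc_co.SC.Spec

/-! # Row NIS: a primitive ball has no inner scale -/

namespace Pool.Agent.MP_ed46bc_co.SC

open Finset Pool.Agent.MP_ed46bc_co.SP
open scoped symmDiff Pointwise

universe u

variable {G : Type u} [AddCommGroup G] [Fintype G] [DecidableEq G]

omit [DecidableEq G] in
lemma nis_neg (ho : Odd (Fintype.card G)) {x : G} (h : x = -x) : x = 0 := by
  have h2 : addOrderOf x ∣ 2 :=
    addOrderOf_dvd_of_nsmul_eq_zero (by rw [two_nsmul]; exact eq_neg_iff_add_eq_zero.1 h)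
  have h3 : addOrderOf x ∣ Fintype.card G := addOrderOf_dvd_card
  exact AddMonoid.addOrderOf_eq_one_iff.1
    (Nat.eq_one_of_dvd_coprimes (Nat.coprime_two_left.2 ho) h2 h3)

/-- An inner scale gives a scale. -/
lemma nis_scale (hD : DL.{u}) {W : Finset G} {h : ℕ} (ho : Odd (Fintype.card G)) (hB : Ball W h)
    (h3 : 3 * W.card < 2 * Fintype.card G) (K : AddSubgroup G) (V : Finset G) (hK : K ≠ ⊥)
    (hV : Per K V) (hs : V ⊆ W) (hne : V.Nonempty) (hlt : (W \ V).card < Nat.card K) :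
    Sc W K (V ∪ ng V) := by
  obtain ⟨b1, b2, b3⟩ := hB
  have p1 : Per K (V ∪ ng V) := per_union hV (per_ng hV)
  have p2 : V ∪ ng V ⊆ W := union_subset hs fun x hx => by
    rw [← b1]
    exact mem_ng.2 (hs (mem_ng.1 hx))
  have p3 : ng (V ∪ ng V) = V ∪ ng V := by
    ext x
    simp [or_comm]
  have p4 : (V ∪ ng V).Nonempty := hne.mono subset_union_left
  have p5 : (W \ (V ∪ ng V)).card < Nat.card K :=
    lt_of_le_of_lt (card_le_card (sdiff_subset_sdiff subset_rfl subset_union_left)) hlt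
  generalize V ∪ ng V = V' at p1 p2 p3 p4 p5
  have e1 : (W ∆ V').card = (W \ V').card := by
    rw [card_symmDiff_eq, sdiff_eq_empty_iff_subset.2 p2, card_empty, add_zero]
  have e2 := card_sdiff_add_card_eq_card p2
  have e3 := per_le p1 p4
  have z0 : (0 : G) ∈ V' := by
    by_contra h0
    by_cases hKW : ∀ y ∈ K, y ∈ W
    · have : cos K 0 ⊆ W \ V' := fun y hy => by
        have hy' : y ∈ K := by simpa using hy
        refine mem_sdiff.2 ⟨hKW y hy', fun h1 => h0 ?_⟩
        simpa using p1 y h1 (-y) (K.neg_mem hy')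
      have := card_le_card this
      rw [card_cos] at this
      omega
    · push Not at hKW
      obtain ⟨y, hy, hyW⟩ := hKW
      have q1 := (hD G W).2.2.2.2.1 K V' p1 y hy
      have q2 : ¬ dl W y ≤ h := fun q => hyW ((b3 y).2 q)
      omega
  have o1 : Odd V'.card := ((hD G V').2.2.2.2.2.2 ho p3).1 z0
  obtain ⟨m, hm⟩ := per_dvd p1
  refine ⟨hK, p1, ⟨m, ?_, by rw [hm, mul_comm]⟩, by omega, by omega⟩
  rw [hm] at o1
  exact (Nat.odd_mul.1 o1).2

theorem nis (hD : DL.{u}) (hP : PG.{u}) (hZ : ZERO.{u}) (hM : MAINA.{u}) : NIS.{u} := by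
  intro G _ _ _ W h ho hB hns hg hgen h3 K₀ V₀ hK₀ hV₀ hs₀ hne₀
  by_contra hlt
  obtain ⟨K, ⟨V, hS⟩, hmax⟩ := Set.exists_max_image {K : AddSubgroup G | ∃ V, Sc W K V}
    (fun K => Nat.card K) (Set.toFinite _)
    ⟨K₀, _, nis_scale hD ho hB h3 K₀ V₀ hK₀ hV₀ hs₀ hne₀ (not_le.1 hlt)⟩
  obtain ⟨Q, _, _, _, f, hf, rfl⟩ := exists_quot K
  obtain ⟨U, rfl⟩ := exists_pre f hS.2.1
  have hN : Near U := hP G Q f W U hf hS fun K V h => hmax K ⟨V, h⟩
  obtain ⟨b1, b2, b3⟩ := hB
  obtain ⟨s1, s2, ⟨t, ht, s3⟩, s4, s5⟩ := hS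
  have k2 := two_le_of_ne_bot s1
  have c1 := card_pre hf U
  have c2 := card_G hf
  have hU : U.card = t := by
    rw [c1, mul_comm t] at s3
    exact Nat.eq_of_mul_eq_mul_left (by omega) s3
  have oQ : Odd (Fintype.card Q) := by
    rw [c2] at ho
    exact (Nat.odd_mul.1 ho).2
  have sym : ng U = U := by
    have q1 := card_symmDiff_tri (pre f U) W (ng (pre f U))
    have q2 : (W ∆ ng (pre f U)).card = (W ∆ pre f U).card := by
      rw [← card_ng (W ∆ pre f U), ng_symmDiff, b1]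
    rw [q2, symmDiff_comm (pre f U) W, ← pre_ng, ← pre_symmDiff, card_pre hf] at q1
    have q3 : (U ∆ ng U).card < 2 := by
      by_contra q
      have := Nat.mul_le_mul_left (Nat.card f.ker) (not_lt.1 q)
      omega
    have q4 := card_symmDiff_eq U (ng U)
    have q5 : (U \ ng U).card = (ng U \ U).card := card_sdiff_comm (card_ng U).symm
    have q6 : U ∆ ng U = ∅ := card_eq_zero.1 (by omega)
    exact (symmDiff_eq_bot.1 q6).symm
  have oU : Odd U.card := hU ▸ ht
  have z0 : (0 : Q) ∈ U := ((hD Q U).2.2.2.2.2.2 oQ sym).2 oU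
  have u3 : 3 * U.card < 2 * Fintype.card Q := by
    rw [c1, c2] at s4
    by_contra q
    have := Nat.mul_le_mul_left (Nat.card f.ker) (not_lt.1 q)
    nlinarith
  by_cases u1 : U.card = 1
  · have e : pre f U = cos f.ker 0 := by
      obtain ⟨a, rfl⟩ := card_eq_one.1 u1
      rw [← mem_singleton.1 z0]
      ext x
      simp
    have : ∃ w ∈ W, w ∉ f.ker := by
      by_contra q
      push Not at q
      have q1 := hgen _ q
      rw [c1, u1, q1, AddSubgroup.card_top, Nat.card_eq_fintype_card] at s4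
      omega
    have := hZ G W f.ker ho b1 hns this (e ▸ s5)
    omega
  · have u4 : 3 ≤ U.card := by
      obtain ⟨a, ha⟩ := oU
      omega
    have v3 : 3 * Nat.card f.ker ≤ (pre f U).card := by
      rw [c1, mul_comm]
      exact Nat.mul_le_mul_left _ u4
    have hx : ∀ x ∈ W ∆ pre f U, f x ≠ -f x := fun x hx q => by
      have q0 := nis_neg oQ q
      have q1 : x ∈ pre f U := mem_pre.2 (q0 ▸ z0)
      have q2 : x ∉ W := by
        rcases mem_symmDiff.1 hx with h1 | h1
        · exact absurd q1 h1.2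
        · exact h1.2
      have q3 := (hD G W).2.2.2.2.1 f.ker _ s2 x (AddMonoidHom.mem_ker.2 q0)
      have q4 : ¬ dl W x ≤ h := fun q => q2 ((b3 x).2 q)
      have q5 := card_le_add_symmDiff (pre f U) W
      rw [symmDiff_comm] at q5
      omega
    have hk : Nat.card f.ker ≤ 3 * (W ∆ pre f U).card := by
      by_contra q
      refine hns ⟨f.ker, _, _, _, s1, ⟨s2, s2, s2, 3 * t, Odd.mul (by decide) ht, ?_⟩, ?_⟩
      · rw [s3]; ring
      · unfold Psi sig
        omega
    have := hM G Q f W U hf b1 sym z0 oU hN u3 h3 hx s5 hk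
    omega

end Pool.Agent.MP_ed46bc_co.SC
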