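import Pool.Agent.MP_ed46bc_co.SC.Spec

/-! Row OR: the oriented state of a small sumset. -/

namespace Pool.Agent.MP_ed46bc_co.SC

open Finset Pool.Agent.MP_ed46bc_co.SP
open scoped symmDiff Pointwise

universe u

theorem or_thm (hS : SS.{u}) : OR.{u} := by
  intro G _ _ _ A B C h hc
  have hT : T A B C = (A.card : ℤ) * B.card := by
    rw [T_eq_card, filter_true_of_mem fun p hp => h _ (mem_product.1 hp).1 _ (mem_product.1 hp).2,
      card_product, Nat.cast_mul]
  have hG : Gam A B C = ((A.card : ℤ) + B.card - C.card) ^ 2 := by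
    rw [Gam, hT]; ring
  have h2 : (2 : ℤ) ≤ (A.card : ℤ) + B.card - C.card := by omega
  obtain ⟨H, P₁, P₂, P₃, ⟨p₁, p₂, p₃, t, ⟨s, rfl⟩, ht⟩, h1, h3⟩ :=
    hS G A B C (by rw [hG]; nlinarith)
  rw [hG] at h3
  have h4 := (pow_le_pow_iff_left₀ (by omega) (by omega) two_ne_zero).1 h3
  rw [Psi, sig, card_symmDiff_eq, card_symmDiff_eq, card_symmDiff_eq] at h4
  have e₁ := card_sdiff_int A P₁
  have e₂ := card_sdiff_int B P₂
  have e₃ := card_sdiff_int C P₃
  obtain ⟨c, hc'⟩ := per_dvd p₃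
  have k0 : (0 : ℤ) < Nat.card H := by omega
  have hD : (P₁.card : ℤ) + P₂.card - P₃.card = (2 * (s - c : ℤ) + 1) * Nat.card H := by
    have a : (P₁.card : ℤ) + P₂.card + P₃.card = (2 * s + 1) * Nat.card H := by exact_mod_cast ht
    have b : (P₃.card : ℤ) = Nat.card H * c := by exact_mod_cast hc'
    linear_combination a - 2 * b
  have m1 : 2 * (s - c : ℤ) + 1 ≤ 1 := le_of_mul_le_mul_right (by omega) k0
  have m2 : -1 < 2 * (s - c : ℤ) + 1 := lt_of_mul_lt_mul_right (by omega) k0.le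
  rw [show 2 * (s - c : ℤ) + 1 = 1 by omega, one_mul] at hD
  exact ⟨H, P₁, P₂, P₃, ne_bot_of_two_le (by omega), p₁, p₂, p₃,
    sdiff_eq_empty_iff_subset.1 (card_eq_zero.1 (by omega)),
    sdiff_eq_empty_iff_subset.1 (card_eq_zero.1 (by omega)),
    sdiff_eq_empty_iff_subset.1 (card_eq_zero.1 (by omega)), by omega, by omega⟩

end Pool.Agent.MP_ed46bc_co.SC
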