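import Pool.Agent.MP_ed46bc_co.SC.Spec

/-!
# Row PAIR: two double flips
-/

namespace Pool.Agent.MP_ed46bc_co.SC

open Finset Pool.Agent.MP_ed46bc_co.SP
open scoped symmDiff Pointwise

universe u

section Aux

variable {Q : Type u} [AddCommGroup Q] [Fintype Q] [DecidableEq Q] {U : Finset Q}

lemma pair_neg (hU : ng U = U) (x : Q) : -x ∈ U ↔ x ∈ U := by
  conv_rhs => rw [← hU]
  simp [ng]

lemma pair_ex (hU : ng U = U) (x : Q) : ex U U U (-x) = ex U U U x := by
  have e : L U U (-x) = L U U x := by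
    unfold L
    rw [← Equiv.sum_comp (Equiv.neg Q)]
    refine sum_congr rfl fun y _ => ?_
    have : - -x - -y = -(-x - y) := by abel
    simp only [Equiv.neg_apply, ind, this, pair_neg hU]
  simp only [ex, e, pair_neg hU]

lemma pair_fr (hU : ng U = U) (x y : Q) : fr U (-x) (-y) = fr U x y := by
  have : - -x - -y = -(-x - y) := by abel
  simp only [fr, this, pair_neg hU]

omit [AddCommGroup Q] [Fintype Q] in
lemma pair_sd (U D : Finset Q) : (U ∆ D) ∆ U = D := by
  rw [symmDiff_comm U D, symmDiff_assoc, symmDiff_self, symmDiff_bot]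

lemma pair_nn (hU : ng U = U) (i : Q) : NN (U ∆ {i, -i}) U = 0 := by
  unfold NN
  by_cases h : i ∈ U
  · have : (U ∆ {i, -i}) \ U = ∅ := by
      rw [sdiff_eq_empty_iff_subset]
      intro x hx
      simp only [mem_symmDiff, mem_insert, mem_singleton] at hx
      rcases hx with hx | ⟨rfl | rfl, hx⟩
      · exact hx.1
      · exact h
      · exact (pair_neg hU i).2 h
    simp [this]
  · have : U \ (U ∆ {i, -i}) = ∅ := by
      rw [sdiff_eq_empty_iff_subset]
      intro x hx
      simp only [mem_symmDiff, mem_insert, mem_singleton]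
      refine Or.inl ⟨hx, ?_⟩
      rintro (rfl | rfl)
      · exact h hx
      · exact h ((pair_neg hU i).1 hx)
    simp [this]

omit [Fintype Q] in
lemma pair_Fr (U D E : Finset Q) :
    Fr (U ∆ D) U (U ∆ E) U U = ∑ x ∈ D, ∑ y ∈ E, fr U x y := by
  rw [Fr, pair_sd, pair_sd, card_filter, ← sum_product']
  push_cast
  refine sum_congr rfl fun p hp => ?_
  obtain ⟨h1, h2⟩ := mem_product.1 hp
  simp only [fr, mem_symmDiff, h1, h2]
  by_cases a : p.1 ∈ U <;> by_cases b : p.2 ∈ U <;> by_cases c : -p.1 - p.2 ∈ U <;> simp [a, b, c]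

lemma pair_card (hU : ng U = U) {i : Q} (hi : i ≠ -i) :
    ((U ∆ {i, -i}).card : ℤ) = U.card + (if i ∈ U then -2 else 2) := by
  have c : ({i, -i} : Finset Q).card = 2 := card_pair hi
  split_ifs with h
  · have s : ({i, -i} : Finset Q) ⊆ U :=
      insert_subset h (singleton_subset_iff.2 ((pair_neg hU i).2 h))
    have := card_sdiff_add_card_eq_card s
    rw [symmDiff_of_ge s]
    omega
  · have s : Disjoint U {i, -i} := by
      rw [disjoint_insert_right, disjoint_singleton_right, pair_neg hU]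
      exact ⟨h, h⟩
    have := card_union_of_disjoint s
    rw [s.symmDiff_eq_sup, sup_eq_union]
    omega

end Aux

theorem pair (h : ACC.{u, u}) : PAIR.{u} := by
  intro Q _ _ _ U i j hU hi hj
  refine ⟨?_, pair_card hU hi, by rw [pair_sd, card_pair hi]⟩
  have a := h Q Q (AddMonoidHom.id Q) (U ∆ {i, -i}) (U ∆ {j, -j}) U U U U Function.surjective_id
  have s : sig (U ∆ {i, -i}) (U ∆ {j, -j}) U U U U = 4 := by
    rw [sig, pair_sd, pair_sd, card_pair hi, card_pair hj]
    simp
  have z : ∀ X Y : Finset Q, Fr X U U U Y = 0 := fun X Y => by simp [Fr]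
  have n : NN U U = 0 := by simp [NN]
  have f : fr U (-i) j = fr U i (-j) := by rw [← pair_fr hU i (-j), neg_neg]
  rw [pre_id, card_ker_id, s, pair_nn hU, pair_nn hU, n, z, z, pair_Fr, pair_sd, pair_sd,
    symmDiff_self, bot_eq_empty, sum_empty, sum_pair hi, sum_pair hj, sum_pair hi, sum_pair hj,
    sum_pair hj, pair_fr hU, f] at a
  simp only [AddMonoidHom.id_apply, pair_ex hU] at a
  rw [a]
  push_cast
  ring

end Pool.Agent.MP_ed46bc_co.SC
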