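import Pool.Agent.MP_ed46bc_co.SC.Spec

/-!
# Row PG: the base of a largest scale
-/

namespace Pool.Agent.MP_ed46bc_co.SC

open Finset Pool.Agent.MP_ed46bc_co.SP
open scoped symmDiff Pointwise

universe u

lemma pg_arith {m N h a : ℕ} (hm : Odd m) (hh : 0 < h) (h1 : 3 * (h * m) + 2 ≤ 2 * (h * N) + h)
    (ha : 0 < a) : 3 * (a * (h * m)) < 2 * (a * (h * N)) := by
  have h2 : h * (3 * m) < h * (2 * N + 1) := by
    have e1 : h * (3 * m) = 3 * (h * m) := by ring
    have e2 : h * (2 * N + 1) = 2 * (h * N) + h := by ring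
    omega
  have h3 : 3 * m < 2 * N + 1 := Nat.lt_of_mul_lt_mul_left h2
  have h4 : 3 * m < 2 * N := by
    rw [Nat.odd_iff] at hm
    omega
  have h5 : (a * h) * (3 * m) < (a * h) * (2 * N) :=
    Nat.mul_lt_mul_of_pos_left h4 (Nat.mul_pos ha hh)
  have e1 : (a * h) * (3 * m) = 3 * (a * (h * m)) := by ring
  have e2 : (a * h) * (2 * N) = 2 * (a * (h * N)) := by ring
  omega

theorem pg (hS : SS.{u}) : PG.{u} := by
  intro G _ _ _ Q _ _ _ f W U hf hsc hmax X Y hX hY hodd hle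
  by_contra hg
  have hg2 : 2 ≤ Gam X Y U := by omega
  obtain ⟨H, P₁, P₂, P₃, hst, hp1, hp2⟩ := hS Q X Y U hg2
  have hg5 : 5 ≤ Gam X Y U := by
    obtain ⟨t, ht⟩ := Gam_mod X Y U
    obtain ⟨r, hr⟩ := hodd
    have e : ((X.card : ℤ) + Y.card + U.card) = 2 * r + 1 := by exact_mod_cast hr
    rw [e] at ht
    have e2 : (2 * (r : ℤ) + 1) ^ 2 = 4 * ((r : ℤ) ^ 2 + r) + 1 := by ring
    rw [e2] at ht
    omega
  have hp3 : 3 ≤ Psi X Y U H P₁ P₂ P₃ := by
    by_contra h3
    have h4 : Psi X Y U H P₁ P₂ P₃ ≤ 2 := by omega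
    nlinarith
  have hsig : (X ∆ P₁).card + (Y ∆ P₂).card + (U ∆ P₃).card + 3 ≤ Nat.card H := by
    unfold Psi sig at hp3
    omega
  obtain ⟨h1, h2, h3, t, ht, e⟩ := hst
  have e13 : P₁ = P₃ := by
    apply per_eq h1 h3
    have a1 := card_symmDiff_tri P₁ X P₃
    have a2 := card_symmDiff_tri X U P₃
    rw [symmDiff_comm P₁ X] at a1
    omega
  have e23 : P₂ = P₃ := by
    apply per_eq h2 h3
    have a1 := card_symmDiff_tri P₂ Y P₃
    have a2 := card_symmDiff_tri Y U P₃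
    rw [symmDiff_comm P₂ Y] at a1
    omega
  subst e13
  subst e23
  have hH := card_sub_pos H
  obtain ⟨m, hm⟩ := per_dvd h1
  obtain ⟨N, hN⟩ := card_sub_dvd H
  have hmo : Odd m := by
    have q : 3 * m = t := by
      apply Nat.eq_of_mul_eq_mul_left hH
      have e1 : Nat.card H * (3 * m) = 3 * (Nat.card H * m) := by ring
      rw [e1, ← hm, mul_comm (Nat.card H) t]
      omega
    rw [Nat.odd_iff] at ht ⊢
    omega
  have b1 := card_le_add_symmDiff P₂ X
  have b2 := card_le_add_symmDiff P₂ Y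
  have b3 := card_le_add_symmDiff P₂ U
  rw [symmDiff_comm P₂ X] at b1
  rw [symmDiff_comm P₂ Y] at b2
  rw [symmDiff_comm P₂ U] at b3
  have hk := card_sub_pos f.ker
  obtain ⟨s0, -, -, -, s4⟩ := hsc
  have hnew : Sc W (H.comap f) (pre f P₂) := by
    refine ⟨?_, per_pre_comap f h1, ⟨m, hmo, ?_⟩, ?_, ?_⟩
    · intro h0
      exact s0 (le_bot_iff.1 (h0 ▸ ker_le_comap f H))
    · rw [card_pre hf, card_comap hf, hm]; ring
    · rw [card_pre hf, card_G hf, hm, hN]
      apply pg_arith hmo hH _ hk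
      rw [← hm, ← hN]
      omega
    · have c1 := card_symmDiff_tri W (pre f U) (pre f P₂)
      rw [← pre_symmDiff, card_pre hf] at c1
      rw [card_comap hf]
      have c2 : Nat.card f.ker * ((U ∆ P₂).card + 1) ≤ Nat.card f.ker * Nat.card H :=
        Nat.mul_le_mul_left _ (by omega)
      rw [mul_add, mul_one] at c2
      omega
  have hfin := hmax _ _ hnew
  rw [card_comap hf] at hfin
  have c3 : Nat.card f.ker * 3 ≤ Nat.card f.ker * Nat.card H := Nat.mul_le_mul_left _ (by omega)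
  omega

end Pool.Agent.MP_ed46bc_co.SC
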