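import Pool.Agent.MP_ed46bc_co.SC.Spec
import Pool.Agent.MP_ed46bc_co.SP.LB
import Pool.Agent.MP_ed46bc_co.SP.EX

/-! # Rows SEC, TOP and DOM -/

namespace Pool.Agent.MP_ed46bc_co.SC

open Finset Pool.Agent.MP_ed46bc_co.SP

universe u

lemma sec_el {G : Type u} [AddCommGroup G] [Finite G] {Q : Type u} [AddCommGroup Q] (f : G →+ Q)
    (hf : Function.Surjective f) (x : Q) : Sec G (Nat.card f.ker) (addOrderOf x) := by
  classical
  have := Finite.of_surjective f hf
  let _ := Fintype.ofFinite G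
  let _ := Fintype.ofFinite Q
  rw [← Nat.card_zmultiples]
  let φ := (zmodAddCyclicAddEquiv (inferInstance : IsAddCyclic (AddSubgroup.zmultiples x))).symm
  refine ⟨(AddSubgroup.zmultiples x).comap f, φ.toAddMonoidHom.comp (f.addSubgroupComap _), ?_,
    card_comap hf _⟩
  exact φ.surjective.comp (AddMonoidHom.addSubgroupComap_surjective_of_surjective _ _ hf)

theorem sec (h1 : C1.{u}) (h2 : C2.{u}) : SEC.{u} := by
  intro G _ _ _
  refine ⟨fun Q _ f hf x => sec_el f hf x, fun k p hp hd => ?_, ?_⟩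
  · rw [← Nat.card_eq_fintype_card] at hd
    obtain ⟨H, hH⟩ := ex_sub k G ((Dvd.intro _ rfl).trans hd)
    have := Fact.mk hp
    obtain ⟨x, hx⟩ := exists_prime_addOrderOf_dvd_card' (G := G ⧸ H) p (ex_dvd_quot H (hH ▸ hd))
    have := sec_el (QuotientAddGroup.mk' H) (QuotientAddGroup.mk'_surjective H) x
    rwa [QuotientAddGroup.ker_mk', hH, hx] at this
  · classical
    rintro b v ⟨k, j, ⟨K, p, hp, hK⟩, h⟩
    rw [Nat.card_eq_fintype_card] at hK
    refine lb_transfer K.subtype K.subtype_injective (b := b) (v := v) ?_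
    rcases h with ⟨t, s, ht, hs, hb, rfl⟩ | ⟨a1, a2, rfl⟩
    · obtain ⟨a1, a2⟩ := h1 K k j p hp hK t s ht hs
      rcases hb with ⟨rfl, hb⟩ | ⟨hb, hb'⟩
      · exact a1 hb
      · obtain ⟨B, b1, b2⟩ := a2 hb'
        exact ⟨B, by omega, b2⟩
    · exact h2 K k j p hp hK b a1 a2

lemma sec_free {G : Type u} [AddCommGroup G] {k j N b : ℕ} (h : Sec G k j) (e : k * j = N)
    (hb : b ≤ N) (hb' : N ≤ b + (j + 1) / 3 * k) : Adm G b ((2 * (N : ℤ) - 3 * b) ^ 2) := by
  subst e
  exact ⟨k, j, h, Or.inr ⟨hb, hb', by push_cast; rfl⟩⟩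

lemma top_prime (d : ℕ) (h : d % 3 = 2) : ∃ p, p.Prime ∧ p ∣ d ∧ p % 3 = 2 := by
  induction d using induction_on_primes with
  | zero => simp at h
  | one => simp at h
  | prime_mul p a hp ih =>
    by_cases c : p % 3 = 2
    · exact ⟨p, hp, dvd_mul_right _ _, c⟩
    · have : a % 3 = 2 := by
        rw [Nat.mul_mod] at h
        have h1 : p % 3 = 0 ∨ p % 3 = 1 := by omega
        rcases h1 with h1 | h1 <;> rw [h1] at h <;> omega
      obtain ⟨q, q1, q2, q3⟩ := ih this
      exact ⟨q, q1, q2.mul_left _, q3⟩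

theorem top (hS : SEC.{u}) : TOP.{u} := by
  intro G _ _ _ N b hN hb
  have N0 : 0 < N := Nat.pos_of_dvd_of_pos hN Fintype.card_pos
  refine ⟨fun i hc h => ?_, fun d hd d2 h => ?_⟩
  · by_cases c : ∃ p, p.Prime ∧ p ∣ N ∧ p % 3 ≠ 1
    · obtain ⟨p, hp, ⟨k, rfl⟩, p3⟩ := c
      refine sec_free ((hS G).2.1 k p hp (by rwa [mul_comm])) (mul_comm _ _) hb ?_
      have p2 := hp.two_le
      have h1 : p ≤ 3 * ((p + 1) / 3) := by omega
      have h2 := Nat.mul_le_mul_right k h1
      nlinarith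
    · push Not at c
      obtain ⟨⟨g, hg⟩, hi⟩ := hc
      have co : N.Coprime i := by
        refine Nat.coprime_of_dvd fun p hp p1 p2 => ?_
        have p3 := c p hp p1
        rcases hi with ⟨a, e, rfl⟩ | ⟨-, hi⟩
        · rcases (Nat.Prime.dvd_mul hp).1 p2 with q | q
          · have := (Nat.prime_dvd_prime_iff_eq hp Nat.prime_two).1 (hp.dvd_of_dvd_pow q)
            omega
          · have := (Nat.prime_dvd_prime_iff_eq hp Nat.prime_three).1 (hp.dvd_of_dvd_pow q)
            omega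
        · exact hi p hp p2 p3
      have dv : N ∣ addOrderOf g := co.dvd_of_dvd_mul_right (hg ▸ hN)
      have := (hS G).1 G (AddMonoidHom.id G) Function.surjective_id ((addOrderOf g / N) • g)
      rw [card_ker_id, addOrderOf_nsmul_addOrderOf_sub (addOrderOf_pos g).ne' dv] at this
      exact sec_free this (one_mul _) hb (by omega)
  · obtain ⟨p, hp, ⟨e, rfl⟩, p3⟩ := top_prime d d2
    obtain ⟨c, rfl⟩ := hd
    have e0 : 0 < e := Nat.pos_of_ne_zero fun e0 => by simp [e0] at N0
    rw [Nat.mul_div_cancel_left _ (Nat.mul_pos hp.pos e0)] at h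
    refine sec_free ((hS G).2.1 (e * c) p hp (by rwa [mul_comm, ← mul_assoc])) (by ring) hb ?_
    have h1 : (p * e + 1) / 3 ≤ (p + 1) / 3 * e := by
      have : 3 * ((p + 1) / 3) = p + 1 := by omega
      have h2 : p * e + 1 ≤ 3 * ((p + 1) / 3 * e) := by rw [← mul_assoc, this]; nlinarith
      omega
    have h2 := Nat.mul_le_mul_right c h1
    rw [mul_assoc] at h2
    omega

theorem dom (hS : SEC.{u}) : DOM.{u} := by
  intro G _ _ _ Q _ _ _ f g a c hf hg ev
  classical
  have cG := card_G hf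
  obtain ⟨e, j, oj, hj⟩ := Nat.exists_eq_two_pow_mul_odd (addOrderOf_pos (f g)).ne'
  have jd : j ∣ addOrderOf (f g) := ⟨2 ^ e, by rw [hj]; ring⟩
  have s1 := (hS G).1 Q f hf ((addOrderOf (f g) / j) • f g)
  rw [addOrderOf_nsmul_addOrderOf_sub (addOrderOf_pos _).ne' jd] at s1
  have jq : j ∣ Fintype.card Q := jd.trans addOrderOf_dvd_card
  have h1 : (AddSubgroup.zmultiples g).index = 2 ^ a * 3 ^ c := by
    have := (AddSubgroup.zmultiples g).card_mul_index
    rw [Nat.card_zmultiples, Nat.card_eq_fintype_card, ← hg] at this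
    exact Nat.eq_of_mul_eq_mul_left (addOrderOf_pos g) this
  have h2 := (AddSubgroup.zmultiples g).index_map_dvd hf
  rw [h1, AddMonoidHom.map_zmultiples] at h2
  have h3 := (AddSubgroup.zmultiples (f g)).card_mul_index
  rw [Nat.card_zmultiples, Nat.card_eq_fintype_card, hj] at h3
  have h4 : Fintype.card Q ∣ j * (2 ^ (e + a) * 3 ^ c) := by
    obtain ⟨z, hz⟩ := h2
    exact ⟨z, by rw [← h3, pow_add, mul_assoc (2 ^ e), hz]; ring⟩
  have j0 : 0 < j := oj.pos
  refine ⟨j, s1, cG ▸ Nat.mul_dvd_mul_left _ jq, fun b bn hb => ?_⟩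
  generalize Nat.card f.ker = k at *
  have hex : ∃ r, j * r ∣ Fintype.card Q ∧ b ≤ j * r * k := by
    obtain ⟨r, hr⟩ := jq
    exact ⟨r, by rw [hr], by rw [← hr, mul_comm, ← cG]; exact bn⟩
  obtain ⟨r1, r2⟩ := Nat.find_spec hex
  have rm := fun r (h : r < Nat.find hex) => Nat.find_min hex h
  generalize Nat.find hex = r at *
  have r0 : r ≠ 0 := by
    rintro rfl
    simp at r1
  have r1' : r ≠ 1 := by
    rintro rfl
    rw [mul_one] at r2
    omega
  have rd : r ∣ 2 ^ (e + a) * 3 ^ c := Nat.dvd_of_mul_dvd_mul_left j0 (r1.trans h4)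
  have dv : j * r * k ∣ Fintype.card G := by
    rw [cG, mul_comm]
    exact Nat.mul_dvd_mul_left _ r1
  refine ⟨j * r, ?_⟩
  rcases Nat.even_or_odd r with ⟨s, rfl⟩ | orr
  · have := rm s (by omega)
    have c1 : j * s ∣ Fintype.card Q := (Dvd.intro 2 (by ring)).trans r1
    have c2 : j * s * k < b := by
      by_contra c
      exact this ⟨c1, by omega⟩
    refine sec_free ((hS G).2.1 (j * s * k) 2 Nat.prime_two (by convert dv using 1; ring))
      (by ring) r2 ?_
    nlinarith
  · obtain ⟨p, hp, pd⟩ := Nat.exists_prime_and_dvd r1'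
    have p3 : p = 3 := by
      rcases (Nat.Prime.dvd_mul hp).1 (pd.trans rd) with q | q
      · have := (Nat.prime_dvd_prime_iff_eq hp Nat.prime_two).1 (hp.dvd_of_dvd_pow q)
        subst this
        exact absurd orr (Nat.not_odd_iff_even.2 (even_iff_two_dvd.2 pd))
      · exact (Nat.prime_dvd_prime_iff_eq hp Nat.prime_three).1 (hp.dvd_of_dvd_pow q)
    subst p3
    obtain ⟨s, rfl⟩ := pd
    have := rm (2 * s) (by omega)
    have c0 : j * s ∣ Fintype.card Q := (Dvd.intro 3 (by ring)).trans r1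
    have c1 : j * (2 * s) ∣ Fintype.card Q := by
      have co : Nat.Coprime 2 (j * s) :=
        Nat.coprime_two_left.2 (oj.mul (Nat.Odd.of_mul_right orr))
      have := co.mul_dvd_of_dvd_of_dvd (even_iff_two_dvd.1 ev) c0
      convert this using 1
      ring
    have c2 : j * (2 * s) * k < b := by
      by_contra c
      exact this ⟨c1, by omega⟩
    refine sec_free ((hS G).2.1 (j * s * k) 3 Nat.prime_three (by convert dv using 1; ring))
      (by ring) r2 ?_
    nlinarith

end Pool.Agent.MP_ed46bc_co.SC
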