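import Pool.Agent.MP_ed46bc_co.SC.Spec

/-! Row TWO: a Sidon set with small growth generates the group. -/

namespace Pool.Agent.MP_ed46bc_co.SC

open Finset Pool.Agent.MP_ed46bc_co.SP
open scoped symmDiff Pointwise

universe u

variable {G : Type u} [AddCommGroup G] [Fintype G] [DecidableEq G]

lemma two_stab {K : AddSubgroup G} {X Y : Finset G}
    (hK : ∀ H : AddSubgroup G, (∀ y ∈ Y, y ∈ H) → K ≤ H) (h : X + Y ⊆ X) : Per K X := by
  have hle := hK (AddAction.stabilizer G X) fun y hy => by
    rw [AddAction.mem_stabilizer_iff]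
    refine eq_of_subset_of_card_le (fun z hz => ?_) (card_vadd_finset y X).ge
    obtain ⟨x, hx, rfl⟩ := mem_vadd_finset.1 hz
    rw [vadd_eq_add, add_comm]
    exact h (add_mem_add hx hy)
  intro x hx g hg
  have e : g +ᵥ X = X := hle hg
  rw [← e, add_comm]
  exact mem_vadd_finset.2 ⟨x, hx, rfl⟩

lemma two_sub {X Y : Finset G} (h0 : (0 : G) ∈ Y) : X ⊆ X + Y := fun x hx => by
  have := add_mem_add hx h0
  rwa [add_zero] at this

lemma two_cos {K : AddSubgroup G} {X Y : Finset G} {x : G} (hY : ∀ y ∈ Y, y ∈ K)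
    (hX : X ⊆ cos K x) : X + Y ⊆ cos K x := fun z hz => by
  obtain ⟨a, ha, y, hy, rfl⟩ := mem_add.1 hz
  exact per_cos K x a (hX ha) y (hY y hy)

lemma two_sh (X Y : Finset G) (e : G) : sh X e + Y = sh (X + Y) e := by
  ext z
  simp only [mem_add, mem_sh]
  constructor
  · rintro ⟨a, ha, y, hy, rfl⟩
    exact ⟨a - e, ha, y, hy, by abel⟩
  · rintro ⟨a, ha, y, hy, h⟩
    refine ⟨a + e, by simpa using ha, y, hy, ?_⟩
    rw [add_right_comm, h, sub_add_cancel]

lemma two_gl (hS : SID.{u}) {K : AddSubgroup G} {X Y : Finset G} {x : G} (hs : Sid Y)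
    (h0 : (0 : G) ∈ Y) (hY : ∀ y ∈ Y, y ∈ K)
    (hK : ∀ H : AddSubgroup G, (∀ y ∈ Y, y ∈ H) → K ≤ H) (h2 : 2 ≤ Y.card) (hx : x ∈ X)
    (hX : X ⊆ cos K x) : cos K x ⊆ X + Y ∨ X.card + Y.card ≤ (X + Y).card + 1 := by
  by_contra hc
  rw [not_or, not_le] at hc
  obtain ⟨h1, hlt⟩ := hc
  by_cases h3 : 3 ≤ Y.card
  · by_cases hX2 : 2 ≤ X.card
    · by_cases hb : (X + Y).card + 2 ≤ Nat.card K
      · have := hS G K Y hs h0 hY hK h3 (sh X (-x))
          (fun z hz => by
            have := mem_cos.1 (hX (mem_sh.1 hz))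
            simpa using this)
          (by rwa [card_sh]) (by rwa [two_sh, card_sh])
        rw [two_sh, card_sh, card_sh] at this
        omega
      · obtain ⟨z, hz, hz'⟩ := not_subset.1 h1
        have hd : Disjoint X (Y.image fun y => z - y) := by
          rw [disjoint_left]
          intro a ha hi
          obtain ⟨y, hy, rfl⟩ := mem_image.1 hi
          exact hz' (mem_add.2 ⟨_, ha, y, hy, sub_add_cancel _ _⟩)
        have hsub : X ∪ Y.image (fun y => z - y) ⊆ cos K x := union_subset hX fun a hi => by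
          obtain ⟨y, hy, rfl⟩ := mem_image.1 hi
          exact (per_cos K x).sub_mem hz (hY y hy)
        have := card_le_card hsub
        rw [card_union_of_disjoint hd, card_image_of_injective _ sub_right_injective,
          card_cos] at this
        omega
    · have : Y.card ≤ (X + Y).card := card_le_card_add_left ⟨x, hx⟩
      omega
  · have e : X = X + Y := eq_of_subset_of_card_le (two_sub h0) (by omega)
    exact h1 ((cos_subset (two_stab hK e.ge) hx).trans e.le)

lemma two_int {K : AddSubgroup G} {S Y : Finset G} {x : G} (hY : ∀ y ∈ Y, y ∈ K) :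
    S ∩ cos K x + Y ⊆ (S + Y) ∩ cos K x :=
  subset_inter (add_subset_add_right inter_subset_left) (two_cos hY inter_subset_right)

lemma two_gain {K : AddSubgroup G} {S Y : Finset G} (hY : ∀ y ∈ Y, y ∈ K)
    (hK : ∀ H : AddSubgroup G, (∀ y ∈ Y, y ∈ H) → K ≤ H) {s w : G} (hs : s ∈ S) (hw : w ∉ S)
    (h : w - s ∈ K) : ∃ z ∈ (S + Y) \ S, z - w ∈ K := by
  by_contra hc
  have hp : Per K (S ∩ cos K w) := two_stab hK fun z hz => by
    have h1 := mem_inter.1 (two_int hY hz)
    refine mem_inter.2 ⟨?_, h1.2⟩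
    by_contra hz'
    exact hc ⟨z, mem_sdiff.2 ⟨h1.1, hz'⟩, mem_cos.1 h1.2⟩
  have h1 : s ∈ S ∩ cos K w := mem_inter.2 ⟨hs, mem_cos.2 (by simpa using K.neg_mem h)⟩
  have h2 := hp s h1 _ h
  rw [add_sub_cancel] at h2
  exact hw (mem_inter.1 h2).1

theorem two (hS : SID.{u}) : TWO.{u} := by
  intro G _ _ _ K W Y hG hW hN hs h0 hY hK h2 hc hn
  classical
  by_contra hT
  set S := Wᶜ with hSdef
  let V : Finset G := univ.filter fun x => ∃ s ∈ S, x - s ∈ K
  have hV : ∀ x, x ∈ V ↔ ∃ s ∈ S, x - s ∈ K := fun x => by simp [V]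
  have hcK : Y.card ≤ Nat.card K := by
    rw [← card_cos K 0]
    exact card_le_card fun y hy => mem_cos.2 (by simpa using hY y hy)
  have pV : Per K V := fun x hx g hg => by
    obtain ⟨s, hs, h⟩ := (hV x).1 hx
    exact (hV _).2 ⟨s, hs, by rw [add_sub_right_comm]; exact K.add_mem h hg⟩
  have sV : S ⊆ V := fun s hs => (hV s).2 ⟨s, hs, by simp⟩
  have hNI : V = univ ∨ Nat.card K ≤ (V \ S).card := by
    by_cases h : V = univ
    · exact Or.inl h
    · have := hN K Vᶜ (ne_bot_of_two_le (by omega)) (per_compl pV)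
        (fun x hx => by
          by_contra hx'
          exact mem_compl.1 hx (sV (mem_compl.2 hx')))
        (by rwa [nonempty_iff_ne_empty, Ne, compl_eq_empty_iff])
      have e : W \ Vᶜ = V \ S := by
        ext x
        simp [S, and_comm]
      rw [e] at this
      exact Or.inr this
  have hg : ((S + Y) \ S).card + S.card = (S + Y).card :=
    card_sdiff_add_card_eq_card (two_sub h0)
  have hw : ∃ w ∈ V \ S, ∃ w' ∈ V \ S, w - w' ∉ K := by
    by_contra hw
    have hw' : ∀ w ∈ V \ S, ∀ w' ∈ V \ S, w - w' ∈ K := fun w h w' h' => by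
      by_contra hn
      exact hw ⟨w, h, w', h', hn⟩
    rcases hNI with h | h
    · refine hT (hG K fun w hw => ?_)
      have := hw' w (by simp [h, S, hw]) 0 (by simp [h, S, hW])
      rwa [sub_zero] at this
    · obtain ⟨w, hw⟩ : (V \ S).Nonempty := card_pos.1 (by omega)
      obtain ⟨s, hs, hws⟩ := (hV w).1 (mem_sdiff.1 hw).1
      have hsub : insert s (V \ S) ⊆ cos K w := insert_subset
        (mem_cos.2 (by simpa using K.neg_mem hws)) fun z hz => mem_cos.2 (hw' z hz w hw)
      have := card_le_card hsub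
      rw [card_insert_of_notMem (fun h => (mem_sdiff.1 h).2 hs), card_cos] at this
      omega
  obtain ⟨w, hw, w', hw', hne⟩ := hw
  have fill : V ⊆ S + Y := fun v hv => by
    obtain ⟨s, hs', hvs⟩ := (hV v).1 hv
    have hsX : s ∈ S ∩ cos K s := mem_inter.2 ⟨hs', by simp⟩
    rcases two_gl hS hs h0 hY hK h2 hsX inter_subset_right with h | h
    · exact (mem_inter.1 (two_int hY (h (mem_cos.2 hvs)))).1
    · exfalso
      obtain ⟨a, ha, hak⟩ : ∃ a ∈ V \ S, a - s ∉ K := by
        by_contra hh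
        have h1 : w - s ∈ K := by
          by_contra h1
          exact hh ⟨w, hw, h1⟩
        have h2 : w' - s ∈ K := by
          by_contra h1
          exact hh ⟨w', hw', h1⟩
        exact hne (by simpa using K.sub_mem h1 h2)
      obtain ⟨t, ht, hat⟩ := (hV a).1 (mem_sdiff.1 ha).1
      obtain ⟨z, hz, hza⟩ := two_gain hY hK ht (mem_sdiff.1 ha).2 hat
      have hzs : z ∉ cos K s := fun h => hak (by simpa using K.sub_mem (mem_cos.1 h) hza)
      have hsub : insert z ((S ∩ cos K s + Y) \ (S ∩ cos K s)) ⊆ (S + Y) \ S :=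
        insert_subset hz fun y hy => by
          have h1 := mem_sdiff.1 hy
          have h2 := mem_inter.1 (two_int hY h1.1)
          exact mem_sdiff.2 ⟨h2.1, fun h => h1.2 (mem_inter.2 ⟨h, h2.2⟩)⟩
      have h3 := card_le_card hsub
      rw [card_insert_of_notMem
        (fun h => hzs (mem_inter.1 (two_int hY (mem_sdiff.1 h).1)).2)] at h3
      have h4 : ((S ∩ cos K s + Y) \ (S ∩ cos K s)).card + (S ∩ cos K s).card =
          (S ∩ cos K s + Y).card := card_sdiff_add_card_eq_card (two_sub h0)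
      omega
  rcases hNI with h | h
  · have := card_le_card fill
    rw [h, card_univ] at this
    omega
  · have := card_le_card (sdiff_subset_sdiff fill (subset_refl S))
    omega

end Pool.Agent.MP_ed46bc_co.SC
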