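import Pool.Agent.MP_ed46bc_co.SC.Spec

/-! The accounting bound for a symmetric base. -/

namespace Pool.Agent.MP_ed46bc_co.SC

open Finset Pool.Agent.MP_ed46bc_co.SP
open scoped symmDiff Pointwise

universe u

section
variable {G : Type u} [AddCommGroup G] [Fintype G] [DecidableEq G]
variable {Q : Type u} [AddCommGroup Q] [Fintype Q] [DecidableEq Q]

theorem upp_fr (f : G →+ Q) (W : Finset G) (U : Finset Q) :
    Fr W (pre f U) W (pre f U) (pre f U) =
      ∑ x ∈ W ∆ pre f U, ∑ y ∈ W ∆ pre f U, fr U (f x) (f y) := by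
  rw [Fr, card_filter, Nat.cast_sum, sum_product]
  refine sum_congr rfl fun x hx => sum_congr rfl fun y hy => ?_
  rw [mem_symmDiff, mem_pre] at hx hy
  have e : ((x ∈ W ↔ y ∈ W) ↔ -x - y ∈ pre f U) ↔ ((f x ∈ U ↔ f y ∈ U) ↔ -f x - f y ∈ U) := by
    rw [mem_pre, map_sub, map_neg]
    tauto
  by_cases c : (f x ∈ U ↔ f y ∈ U) ↔ -f x - f y ∈ U
  · rw [fr, if_pos c, if_neg (not_not.2 (e.2 c)), Nat.cast_zero]
  · rw [fr, if_neg c, if_pos fun d => c (e.1 d), Nat.cast_one]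

theorem upp_neg (f : G →+ Q) {W : Finset G} {U : Finset Q} (hW : ng W = W) (hU : ng U = U)
    (F : Q → ℤ) : ∑ y ∈ W ∆ pre f U, F (-f y) = ∑ y ∈ W ∆ pre f U, F (f y) := by
  refine sum_equiv (Equiv.neg G) (fun y => ?_) fun y _ => by rw [Equiv.neg_apply, map_neg]
  have e1 : -y ∈ W ↔ y ∈ W := by rw [← mem_ng, hW]
  have e2 : -f y ∈ U ↔ f y ∈ U := by rw [← mem_ng, hU]
  rw [Equiv.neg_apply, mem_symmDiff, mem_symmDiff, mem_pre, mem_pre, map_neg, e1, e2]

end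

theorem upp (h : ACC.{u, u}) : UPP.{u} := by
  intro G _ _ _ Q _ _ _ f W U hf hW hU
  have h1 := h G Q f W W W U U U hf
  have h2 : 0 ≤ Fr W (pre f U) W (pre f U) W := Int.natCast_nonneg _
  rw [upp_fr, sig, NN] at h1
  simp only [sum_add_distrib, upp_neg f hW hU (fr U _)]
  rw [h1]
  linarith

end Pool.Agent.MP_ed46bc_co.SC
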