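import Pool.Agent.MP_ed46bc_co.SC.Spec

/-! Row ZERO: a set close to a proper subgroup has no gain. -/

namespace Pool.Agent.MP_ed46bc_co.SC

open Finset Pool.Agent.MP_ed46bc_co.SP
open scoped symmDiff Pointwise

universe u

variable {G : Type u} [AddCommGroup G] [Fintype G] [DecidableEq G]

omit [DecidableEq G] in
lemma zero_half (hG : Odd (Fintype.card G)) {K : AddSubgroup G} {x : G} (h : x + x ∈ K) :
    x ∈ K := by
  obtain ⟨m, hm⟩ := hG
  have h1 : (2 * m + 1) • x = 0 := hm ▸ card_nsmul_eq_zero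
  have h2 : x = -(m • (x + x)) := by
    rw [eq_neg_iff_add_eq_zero, ← h1, add_nsmul, one_nsmul, mul_nsmul, two_nsmul, add_comm]
  rw [h2]
  exact K.neg_mem (K.nsmul_mem h m)

lemma zero_pairs (hG : Odd (Fintype.card G)) {K : AddSubgroup G} {A : Finset G}
    (hA : ∀ x ∈ A, -x ∈ A ∧ x ∉ K) : 2 * T A A (cos K 0) ≤ (A.card : ℤ) * A.card := by
  have h : T A A (cos K 0) ≤ T A A (cos K 0)ᶜ := by
    rw [T_eq_card, T_eq_card, Nat.cast_le]
    refine card_le_card_of_injOn (fun p => (p.1, -p.2)) (fun p hp => ?_) fun p _ q _ e =>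
      Prod.ext (congrArg Prod.fst e :) (neg_injective (congrArg Prod.snd e :))
    simp only [coe_filter, mem_product, mem_compl, mem_cos, sub_zero, Set.mem_ofPred_eq] at hp ⊢
    refine ⟨⟨hp.1.1, (hA _ hp.1.2).1⟩, fun h => (hA _ hp.1.1).2 (zero_half hG ?_)⟩
    have := K.neg_mem (K.add_mem hp.2 h)
    rwa [show -(-p.1 - p.2 + (-p.1 - -p.2)) = p.1 + p.1 by abel] at this
  rw [T_compl3] at h
  omega

lemma zero_T {A B C C' : Finset G} (h : ∀ x ∈ A, ∀ y ∈ B, -x - y ∈ C → -x - y ∈ C') :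
    T A B C ≤ T A B C' := by
  rw [T_eq_card, T_eq_card, Nat.cast_le]
  refine card_le_card fun p hp => ?_
  simp only [mem_filter, mem_product] at hp ⊢
  exact ⟨hp.1, h _ hp.1.1 _ hp.1.2 hp.2⟩

theorem zero (hS : SS.{u}) : ZERO.{u} := by
  intro G _ _ _ W K hG hW hn ⟨w, hw, hwK⟩ hc
  obtain ⟨V, hV⟩ : ∃ V, V = W ∩ cos K 0 := ⟨_, rfl⟩
  obtain ⟨A, hA⟩ : ∃ A, A = W \ cos K 0 := ⟨_, rfl⟩
  have mV : ∀ x, x ∈ V ↔ x ∈ W ∧ x ∈ K := fun x => by simp [hV]
  have mA : ∀ x, x ∈ A ↔ x ∈ W ∧ x ∉ K := fun x => by simp [hA]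
  have d : Disjoint V A := disjoint_left.2 fun x h h' => ((mA x).1 h').2 ((mV x).1 h).2
  have e : W = V ∪ A := by
    ext x
    rw [mem_union, mV, mA]
    tauto
  have ec : (W.card : ℤ) = V.card + A.card := by
    rw [e, card_union_of_disjoint d]
    push_cast
    rfl
  have a1 : 1 ≤ A.card := card_pos.2 ⟨w, (mA w).2 ⟨hw, hwK⟩⟩
  have a2 : A.card < V.card := by
    have h1 := card_sdiff_add_card_inter (cos K 0) W
    rw [card_symmDiff_eq, ← hA] at hc
    rw [inter_comm, ← hV, card_cos] at h1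
    omega
  have t0 : T V V A = 0 := le_antisymm ((zero_T (C' := ∅) fun x hx y hy h => absurd
    (K.sub_mem (K.neg_mem ((mV x).1 hx).2) ((mV y).1 hy).2) ((mA _).1 h).2).trans
      (by simp [T_eq_card])) (T_nonneg _ _ _)
  have t1 : T A A V ≤ T A A (cos K 0) := zero_T fun x _ y _ h => by simpa using ((mV _).1 h).2
  have t2 : 2 * T A A (cos K 0) ≤ (A.card : ℤ) * A.card := zero_pairs hG fun x hx =>
    ⟨(mA _).2 ⟨mem_ng.1 (hW.symm ▸ ((mA x).1 hx).1), fun h => ((mA x).1 hx).2 (neg_mem_iff.1 h)⟩,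
      ((mA x).1 hx).2⟩
  have t3 := T_le A A (V ∪ A)
  rw [T_union3 _ _ d] at t3
  have t4 : T W W W = T V V V + 3 * T V V A + 3 * T A A V + T A A A := by
    rw [e]
    simp only [T_union1 d, T_union2 _ d, T_union3 _ _ d]
    rw [T_swap23 V A V, T_swap12 A V V, T_swap23 V A V, T_swap12 V A A, T_swap23 A V A]
    ring
  have g0 : Gam W W W ≤ Gam V V V + 5 * (A.card : ℤ) ^ 2 - 6 * V.card * A.card := by
    unfold Gam
    rw [t4, ec, t0]
    nlinarith
  have g1 := Gam_le_p V V V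
  have a1' : (1 : ℤ) ≤ A.card := by exact_mod_cast a1
  have a2' : (A.card : ℤ) < V.card := by exact_mod_cast a2
  have g2 : Gam V V V ≤ 9 * (A.card : ℤ) ^ 2 := by
    by_contra hlt
    obtain ⟨H, P₁, P₂, P₃, s1, s2, s3⟩ := hS G V V V (by nlinarith)
    have s4 : 3 * (A.card : ℤ) < Psi V V V H P₁ P₂ P₃ := by
      by_contra h
      nlinarith
    have s5 := sig_tri W W W V V V P₁ P₂ P₃
    have s6 : W ∆ V = A := by
      ext x
      rw [mem_symmDiff, mV, mA]
      tauto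
    have s7 := sig_nonneg V V V P₁ P₂ P₃
    have s8 : sig W W W V V V = 3 * A.card := by
      rw [sig, s6]
      ring
    refine hn ⟨H, P₁, P₂, P₃, ne_bot_of_two_le ?_, s1, ?_⟩ <;> unfold Psi at * <;> omega
  rcases le_or_gt (V.card : ℤ) (5 * A.card) with h | h <;> nlinarith

end Pool.Agent.MP_ed46bc_co.SC
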