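import Pool.Agent.MP_ed46bc_co.SP.All
import Pool.Agent.MP_ed46bc_co.SC.DL
import Pool.Agent.MP_ed46bc_co.SC.ORI
import Pool.Agent.MP_ed46bc_co.SC.PG
import Pool.Agent.MP_ed46bc_co.SC.ZERO
import Pool.Agent.MP_ed46bc_co.SC.PAIR
import Pool.Agent.MP_ed46bc_co.SC.UPP
import Pool.Agent.MP_ed46bc_co.SC.MAINA
import Pool.Agent.MP_ed46bc_co.SC.NIS
import Pool.Agent.MP_ed46bc_co.SC.CRIT
import Pool.Agent.MP_ed46bc_co.SC.ATOM
import Pool.Agent.MP_ed46bc_co.SC.SID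
import Pool.Agent.MP_ed46bc_co.SC.TWO
import Pool.Agent.MP_ed46bc_co.SC.CYC
import Pool.Agent.MP_ed46bc_co.SC.INV
import Pool.Agent.MP_ed46bc_co.SC.SEC
import Pool.Agent.MP_ed46bc_co.SC.ARC
import Pool.Agent.MP_ed46bc_co.SC.MS
import Pool.Agent.MP_ed46bc_co.SC.Fin

/-!
# Assembly
-/

namespace Pool.Agent.MP_ed46bc_co.SC

open Pool.Agent.MP_ed46bc_co.SP

universe u

theorem all_inv : INV.{u} :=
  inv dl_thm (ball all_ss) (nis dl_thm (pg all_ss) (zero all_ss) (maina (pair acc) (upp acc)))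
    (crit dl_thm (or_thm all_ss)) (cyc atom (sid atom) (two (sid atom))) tr

theorem all_sec : SEC.{u} := sec (c1 acc int_thm) c2

theorem all_ms : MS.{u} :=
  ms acc all_up all_ss all_zg (arc all_inv all_sec (top all_sec) (dom all_sec)) (top all_sec)

theorem all_cov : COV.{u} := cov all_sec (dom all_sec)

end Pool.Agent.MP_ed46bc_co.SC
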