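import Pool.Agent.MP_ed46bc_co.SC.Spec

/-! # Row SID: growth under a Sidon set -/

namespace Pool.Agent.MP_ed46bc_co.SC

open Finset Pool.Agent.MP_ed46bc_co.SP
open scoped symmDiff Pointwise

universe u

section

variable {G : Type u} [AddCommGroup G] [Fintype G] [DecidableEq G]

lemma sid_inter {S : Finset G} (hS : Sid S) {a b : G} (h : a ≠ b) :
    (sh S a ∩ sh S b).card ≤ 1 := by
  have e : sh S a ∩ sh S b = sh (S ∩ sh S (b - a)) a := by
    ext x
    simp only [mem_inter, mem_sh, sub_sub_sub_cancel_right]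
  rw [e, card_sh]
  exact hS _ (sub_ne_zero.2 h.symm)

lemma sid_sub {S T : Finset G} {a : G} (ha : a ∈ T) : sh S a ⊆ T + S := fun x hx =>
  mem_add.2 ⟨a, ha, x - a, mem_sh.1 hx, add_sub_cancel a x⟩

lemma sid_two {S T : Finset G} (hS : Sid S) (hT : 2 ≤ T.card) :
    2 * S.card ≤ (T + S).card + 1 := by
  obtain ⟨a, ha, b, hb, hab⟩ := one_lt_card.1 hT
  have h1 := card_union_add_card_inter (sh S a) (sh S b)
  have h2 := sid_inter hS hab
  have h3 := card_le_card (union_subset (sid_sub (S := S) ha) (sid_sub hb))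
  rw [card_sh, card_sh] at h1
  omega

lemma sid_three {S T : Finset G} (hS : Sid S) (hT : 3 ≤ T.card) :
    3 * S.card ≤ (T + S).card + 3 := by
  obtain ⟨a, ha, b, hb, d, hd, hab, had, hbd⟩ := two_lt_card.1 hT
  have h1 := card_union_add_card_inter (sh S a) (sh S b)
  have h1' := card_union_add_card_inter (sh S a ∪ sh S b) (sh S d)
  have h2 := sid_inter hS hab
  have h4 := sid_inter hS had
  have h5 := sid_inter hS hbd
  have h6 := card_union_le (sh S a ∩ sh S d) (sh S b ∩ sh S d)
  have h3 := card_le_card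
    (union_subset (union_subset (sid_sub (S := S) ha) (sid_sub hb)) (sid_sub hd))
  rw [card_sh, card_sh] at h1
  rw [card_sh, union_inter_distrib_right] at h1'
  omega

lemma sid_cos {Q : Type u} [AddCommGroup Q] [DecidableEq Q] (f : G →+ Q) (Y : Finset G) (x : G) :
    (Y.image f).card * Nat.card f.ker ≤ (cos f.ker x + Y).card := by
  have hm : Set.MapsTo (fun z => f (z - x)) (↑(cos f.ker x + Y) : Set G) ↑(Y.image f) := by
    intro z hz
    obtain ⟨a, ha, y, hy, rfl⟩ := mem_add.1 (mem_coe.1 hz)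
    refine mem_coe.2 (mem_image.2 ⟨y, hy, ?_⟩)
    have h0 : f (a - x) = 0 := mem_cos.1 ha
    change f y = f (a + y - x)
    rw [add_sub_right_comm, map_add, h0, zero_add]
  rw [card_eq_sum_card_fiberwise hm, ← smul_eq_mul]
  refine card_nsmul_le_sum _ _ _ fun q hq => ?_
  obtain ⟨y, hy, rfl⟩ := mem_image.1 hq
  rw [← card_cos f.ker (x + y)]
  refine card_le_card fun z hz => ?_
  have h0 : z - (x + y) ∈ f.ker := mem_cos.1 hz
  refine mem_filter.2 ⟨mem_add.2 ⟨z - y, mem_cos.2 ?_, y, hy, sub_add_cancel z y⟩, ?_⟩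
  · rwa [sub_sub, add_comm y x]
  · have h1 : f (z - (x + y)) = 0 := h0
    rw [← sub_sub, map_sub] at h1
    exact sub_eq_zero.1 h1

lemma sid_pairs {Q : Type u} [AddCommGroup Q] [DecidableEq Q] (f : G →+ Q) {Y : Finset G}
    (hY : Sid Y) : 2 * Y.card + 1 ≤ 2 * (Y.image f).card + Nat.card f.ker := by
  set P := (Y ×ˢ Y).filter fun p : G × G => f p.1 = f p.2 with hP
  have h1 : Y.card = ∑ q ∈ Y.image f, (Y.filter fun y => f y = q).card :=
    card_eq_sum_card_image f Y
  have hm : Set.MapsTo (fun p : G × G => f p.1) (↑P : Set (G × G)) ↑(Y.image f) := by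
    intro p hp
    exact mem_coe.2 (mem_image_of_mem f (mem_product.1 (mem_filter.1 (mem_coe.1 hp)).1).1)
  have h2 : P.card = ∑ q ∈ Y.image f,
      (Y.filter fun y => f y = q).card * (Y.filter fun y => f y = q).card := by
    rw [card_eq_sum_card_fiberwise hm]
    refine sum_congr rfl fun q _ => ?_
    rw [← card_product]
    refine congrArg card ?_
    ext p
    simp only [hP, mem_filter, mem_product]
    exact ⟨fun ⟨⟨⟨a, b⟩, c⟩, d⟩ => ⟨⟨a, d⟩, b, c ▸ d⟩,
      fun ⟨⟨a, d⟩, b, c⟩ => ⟨⟨⟨a, b⟩, d.trans c.symm⟩, d⟩⟩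
  have h3 : 3 * Y.card ≤ P.card + 2 * (Y.image f).card := by
    rw [h2, h1, mul_sum, mul_comm 2, ← smul_eq_mul, ← sum_const, ← sum_add_distrib]
    refine sum_le_sum fun q _ => ?_
    generalize (Y.filter fun y => f y = q).card = n
    rcases n with _ | _ | n
    · omega
    · omega
    · nlinarith [Nat.zero_le n]
  have h4 := card_filter_add_card_filter_not (s := P) fun p : G × G => p.1 = p.2
  have h5 : (P.filter fun p : G × G => p.1 = p.2).card ≤ Y.card := by
    refine card_le_card_of_injOn Prod.fst (fun p hp => ?_) fun p hp p' hp' e => ?_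
    · exact mem_coe.2 (mem_product.1 (mem_filter.1 (mem_filter.1 (mem_coe.1 hp)).1).1).1
    · exact Prod.ext e ((mem_filter.1 (mem_coe.1 hp)).2.symm.trans
        (e.trans (mem_filter.1 (mem_coe.1 hp')).2))
  have h6 : (P.filter fun p : G × G => ¬ p.1 = p.2).card ≤ ((cos f.ker 0).erase 0).card := by
    refine card_le_card_of_injOn (fun p => p.1 - p.2) (fun p hp => ?_) fun p hp p' hp' e => ?_
    · obtain ⟨k1, k2⟩ := mem_filter.1 (mem_coe.1 hp)
      refine mem_coe.2 (mem_erase.2 ⟨sub_ne_zero.2 k2, mem_cos.2 ?_⟩)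
      rw [sub_zero, AddMonoidHom.mem_ker, map_sub, (mem_filter.1 k1).2, sub_self]
    · obtain ⟨k1, k2⟩ := mem_filter.1 (mem_coe.1 hp)
      obtain ⟨a, b⟩ := mem_product.1 (mem_filter.1 k1).1
      obtain ⟨a', b'⟩ := mem_product.1 (mem_filter.1 (mem_filter.1 (mem_coe.1 hp')).1).1
      have e0 : p.1 - p.2 = p'.1 - p'.2 := e
      have e1 : p.1 = p'.1 := card_le_one.1 (hY _ (sub_ne_zero.2 k2)) _
        (mem_inter.2 ⟨a, mem_sh.2 (by rwa [sub_sub_cancel])⟩) _
        (mem_inter.2 ⟨a', mem_sh.2 (by rwa [e0, sub_sub_cancel])⟩)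
      refine Prod.ext e1 ?_
      rw [e1] at e0
      exact sub_right_injective e0
  have h7 := card_erase_add_one (s := cos f.ker 0) (a := 0) (mem_cos.2 (by simp))
  rw [card_cos] at h7
  omega

end

theorem sid (hA : ATOM.{u}) : SID.{u} := by
  intro G _ _ _ K Y hY h0 hK hgen hc X₀ hX₀ h2 hlt
  by_contra hcon
  obtain ⟨X, -, hX, hXK, hmin, hcase⟩ := hA G K Y X₀ hK ⟨0, h0⟩ hX₀ h2 hlt
  rcases hcase with hS | ⟨H, x, hH, rfl⟩
  · have a2 := sid_two hY hX
    by_cases k : 3 ≤ X.card
    · have a3 := sid_three hY k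
      have a4 := sid_three hS hc
      rw [add_comm Y X] at a4
      omega
    · omega
  · classical
    have b1 := sid_cos (QuotientAddGroup.mk' H) Y x
    have b2 := sid_pairs (QuotientAddGroup.mk' H) hY
    rw [QuotientAddGroup.ker_mk'] at b1 b2
    have b3 := two_le_of_ne_bot hH
    rw [card_cos] at hmin
    have b4 : 2 ≤ (Y.image (QuotientAddGroup.mk' H)).card := by
      by_contra k
      have k1 : K ≤ H := hgen H fun y hy => by
        have := card_le_one.1 (show (Y.image (QuotientAddGroup.mk' H)).card ≤ 1 by omega) _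
          (mem_image_of_mem _ hy) _ (mem_image_of_mem _ h0)
        rw [map_zero] at this
        exact (QuotientAddGroup.eq_zero_iff y).1 this
      have k2 := AddSubgroup.card_le_of_le k1
      have k3 : (cos H x).card ≤ (cos H x + Y).card := card_le_card_add_right ⟨0, h0⟩
      rw [card_cos] at k3
      omega
    obtain ⟨v, hv⟩ := Nat.exists_eq_add_of_le b4
    obtain ⟨w, hw⟩ := Nat.exists_eq_add_of_le b3
    rw [hv, hw] at b1 b2
    rw [hw] at hmin
    nlinarith [Nat.zero_le (v * w)]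

end Pool.Agent.MP_ed46bc_co.SC
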