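import Pool.Agent.MP_ed46bc_co.SP.Quot

/-!
# Cyclic sections and Schur triples: definitions and row statements

See the note d15_ed46bc_SC_h66.md. Every row proves one statement of this file from the statements
listed as its hypotheses.
-/

namespace Pool.Agent.MP_ed46bc_co.SC

open Finset Pool.Agent.MP_ed46bc_co.SP
open scoped symmDiff Pointwise

universe u

section Defs

variable {G : Type u} [AddCommGroup G] [Fintype G] [DecidableEq G]

/-- The number of points of `W` outside `W + x`. -/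
def dl (W : Finset G) (x : G) : ℕ := (W \ sh W x).card

/-- `W` is symmetric, has `2h + 1` points and is the ball of radius `h` for `dl W`. -/
def Ball (W : Finset G) (h : ℕ) : Prop :=
  ng W = W ∧ W.card = 2 * h + 1 ∧ ∀ x, x ∈ W ↔ dl W x ≤ h

/-- `W` generates the group. -/
def Gen (W : Finset G) : Prop := ∀ K : AddSubgroup G, (∀ w ∈ W, w ∈ K) → K = ⊤

/-- A scale of `W`. -/
def Sc (W : Finset G) (K : AddSubgroup G) (V : Finset G) : Prop :=
  K ≠ ⊥ ∧ Per K V ∧ (∃ t : ℕ, Odd t ∧ V.card = t * Nat.card K) ∧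
    3 * V.card < 2 * Fintype.card G ∧ (W ∆ V).card < Nat.card K

/-- `W` has no inner scale. -/
def NI (W : Finset G) : Prop :=
  ∀ (K : AddSubgroup G) (V : Finset G), K ≠ ⊥ → Per K V → V ⊆ W → V.Nonempty →
    Nat.card K ≤ (W \ V).card

/-- Sets near `U` have no gain together with `U`. -/
def Near (U : Finset G) : Prop :=
  ∀ X Y : Finset G, (X ∆ U).card ≤ 2 → (Y ∆ U).card ≤ 2 → Odd (X.card + Y.card + U.card) →
    X.card + Y.card + U.card ≤ 2 * Fintype.card G + 1 → Gam X Y U ≤ 1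

/-- Indicator of a frustrated pair. -/
def fr (U : Finset G) (i j : G) : ℤ := if ((i ∈ U ↔ j ∈ U) ↔ -i - j ∈ U) then 0 else 1

/-- Distinct translates of `Y` meet in at most one point. -/
def Sid (Y : Finset G) : Prop := ∀ g : G, g ≠ 0 → (Y ∩ sh Y g).card ≤ 1

end Defs

/-- `G` has a subgroup of order `k * j` with a cyclic quotient of order `j`. -/
def Sec (G : Type u) [AddCommGroup G] (k j : ℕ) : Prop :=
  ∃ (K : AddSubgroup G) (p : K →+ ZMod j), Function.Surjective p ∧ Nat.card K = k * j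

/-- The admissible values for sets of size `b`. -/
def Adm (G : Type u) [AddCommGroup G] (b : ℕ) (v : ℤ) : Prop :=
  ∃ k j : ℕ, Sec G k j ∧
    ((∃ t s : ℕ, Odd t ∧ s ≤ k ∧ ((b = t * k + s ∧ b ≤ j * k) ∨ (b + s = t * k ∧ 3 * t < 2 * j)) ∧
        v = ((k : ℤ) - s) * ((k : ℤ) - 5 * s)) ∨
      (b ≤ k * j ∧ k * j ≤ b + (j + 1) / 3 * k ∧ v = (2 * ((k : ℤ) * j) - 3 * b) ^ 2))

/-- The class of groups, with the index `i` of a cyclic subgroup. -/
def Cl (G : Type u) [AddCommGroup G] [Fintype G] (i : ℕ) : Prop :=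
  (∃ g : G, addOrderOf g * i = Fintype.card G) ∧
    ((∃ a c : ℕ, i = 2 ^ a * 3 ^ c) ∨
      (Odd (Fintype.card G) ∧ ∀ p : ℕ, p.Prime → p ∣ i → p % 3 ≠ 1))

/-! ## Row statements -/

/-- Row DL: the pseudo-norm. -/
def DL : Prop :=
  ∀ (G : Type u) [AddCommGroup G] [Fintype G] [DecidableEq G] (W : Finset G),
    dl W 0 = 0 ∧ (∀ x, dl W (-x) = dl W x) ∧ (∀ x y, dl W (x + y) ≤ dl W x + dl W y) ∧
    (∀ x, L W (ng W) x = (W.card : ℤ) - dl W x) ∧
    (∀ (K : AddSubgroup G) (V : Finset G), Per K V → ∀ y ∈ K, dl W y ≤ (W ∆ V).card) ∧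
    ∑ x, ((W.card : ℤ) - dl W x) = (W.card : ℤ) ^ 2 ∧
    (Odd (Fintype.card G) → ng W = W → ((0 : G) ∈ W ↔ Odd W.card))

/-- Row BALL: a primitive set of gain one is a ball. -/
def BALL : Prop :=
  ∀ (G : Type u) [AddCommGroup G] [Fintype G] [DecidableEq G] (W : Finset G),
    ¬ HasSt W W (ng W) → Gam W W (ng W) = 1 →
    ∃ h, Ball W h ∧ ∑ x ∈ W, dl W x = h * (h + 1) ∧
      (W.card = 1 ∨ 3 * W.card < 2 * Fintype.card G)

/-- Row OR: the oriented state of a small sumset. -/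
def OR : Prop :=
  ∀ (G : Type u) [AddCommGroup G] [Fintype G] [DecidableEq G] (A B C : Finset G),
    (∀ a ∈ A, ∀ b ∈ B, -a - b ∈ C) → C.card + 2 ≤ A.card + B.card →
    ∃ (H : AddSubgroup G) (P₁ P₂ P₃ : Finset G), H ≠ ⊥ ∧ Per H P₁ ∧ Per H P₂ ∧ Per H P₃ ∧
      A ⊆ P₁ ∧ B ⊆ P₂ ∧ P₃ ⊆ C ∧ P₁.card + P₂.card = P₃.card + Nat.card H ∧
      (P₁ \ A).card + (P₂ \ B).card + (C \ P₃).card + 2 ≤ Nat.card H

/-- Row PG: the base of a largest scale. -/
def PG : Prop :=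
  ∀ (G : Type u) [AddCommGroup G] [Fintype G] [DecidableEq G]
    (Q : Type u) [AddCommGroup Q] [Fintype Q] [DecidableEq Q] (f : G →+ Q)
    (W : Finset G) (U : Finset Q), Function.Surjective f → Sc W f.ker (pre f U) →
    (∀ K V, Sc W K V → Nat.card K ≤ Nat.card f.ker) → Near U

/-- Row ZERO: a set close to a proper subgroup. -/
def ZERO : Prop :=
  ∀ (G : Type u) [AddCommGroup G] [Fintype G] [DecidableEq G] (W : Finset G)
    (K : AddSubgroup G), Odd (Fintype.card G) → ng W = W → ¬ HasSt W W W →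
    (∃ w ∈ W, w ∉ K) → (W ∆ cos K 0).card < Nat.card K → Gam W W W ≤ 0

/-- Row PAIR: two double flips. -/
def PAIR : Prop :=
  ∀ (Q : Type u) [AddCommGroup Q] [Fintype Q] [DecidableEq Q] (U : Finset Q) (i j : Q),
    ng U = U → i ≠ -i → j ≠ -j →
    Gam (U ∆ {i, -i}) (U ∆ {j, -j}) U =
      Gam U U U + 8 - 2 * ex U U U i - 2 * ex U U U j - 8 * (fr U i j + fr U i (-j)) ∧
    ((U ∆ {i, -i}).card : ℤ) = U.card + (if i ∈ U then -2 else 2) ∧
    ((U ∆ {i, -i}) ∆ U).card = 2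

/-- Row UPP: the accounting bound for a symmetric base. -/
def UPP : Prop :=
  ∀ (G : Type u) [AddCommGroup G] [Fintype G] [DecidableEq G]
    (Q : Type u) [AddCommGroup Q] [Fintype Q] [DecidableEq Q] (f : G →+ Q)
    (W : Finset G) (U : Finset Q), Function.Surjective f → ng W = W → ng U = U →
    Gam W W W ≤ (Nat.card f.ker : ℤ) ^ 2 * Gam U U U
      - 6 * (Nat.card f.ker : ℤ) * (W ∆ pre f U).card + 9 * ((W ∆ pre f U).card : ℤ) ^ 2
      - 3 * (Nat.card f.ker : ℤ) * ∑ x ∈ W ∆ pre f U, ex U U U (f x)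
      - 12 * (((W \ pre f U).card : ℤ) * (pre f U \ W).card)
      - 4 * ∑ x ∈ W ∆ pre f U, ∑ y ∈ W ∆ pre f U, (fr U (f x) (f y) + fr U (f x) (-f y))

/-- Row MAINA: the main inequality. -/
def MAINA : Prop :=
  ∀ (G : Type u) [AddCommGroup G] [Fintype G] [DecidableEq G]
    (Q : Type u) [AddCommGroup Q] [Fintype Q] [DecidableEq Q] (f : G →+ Q)
    (W : Finset G) (U : Finset Q), Function.Surjective f → ng W = W → ng U = U →
    (0 : Q) ∈ U → Odd U.card → Near U → 3 * U.card < 2 * Fintype.card Q →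
    3 * W.card < 2 * Fintype.card G → (∀ x ∈ W ∆ pre f U, f x ≠ -f x) →
    (W ∆ pre f U).card < Nat.card f.ker → Nat.card f.ker ≤ 3 * (W ∆ pre f U).card →
    Gam W W W ≤ 0

/-- Row NIS: no inner scale. -/
def NIS : Prop :=
  ∀ (G : Type u) [AddCommGroup G] [Fintype G] [DecidableEq G] (W : Finset G) (h : ℕ),
    Odd (Fintype.card G) → Ball W h → ¬ HasSt W W W → Gam W W W = 1 → Gen W →
    3 * W.card < 2 * Fintype.card G → NI W

/-- Row CRIT: a critical pair for the complement. -/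
def CRIT : Prop :=
  ∀ (G : Type u) [AddCommGroup G] [Fintype G] [DecidableEq G] (W : Finset G) (h : ℕ),
    Odd (Fintype.card G) → Ball W h → ∑ x ∈ W, dl W x = h * (h + 1) → Gam W W W = 1 → Gen W →
    NI W → 2 ≤ h → 3 * W.card < 2 * Fintype.card G →
    ∃ Y : Finset G, 2 ≤ Y.card ∧ (Wᶜ + Y).card + 1 ≤ Wᶜ.card + Y.card ∧
      (Wᶜ + Y).card + 2 ≤ Fintype.card G

/-- Row ATOM: atoms are cosets or Sidon sets. -/
def ATOM : Prop :=
  ∀ (G : Type u) [AddCommGroup G] [Fintype G] [DecidableEq G] (K : AddSubgroup G)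
    (S X₀ : Finset G), (∀ s ∈ S, s ∈ K) → S.Nonempty → (∀ x ∈ X₀, x ∈ K) → 2 ≤ X₀.card →
    (X₀ + S).card + 2 ≤ Nat.card K →
    ∃ X : Finset G, (∀ x ∈ X, x ∈ K) ∧ 2 ≤ X.card ∧ (X + S).card + 2 ≤ Nat.card K ∧
      (X + S).card + X₀.card ≤ (X₀ + S).card + X.card ∧
      (Sid X ∨ ∃ (H : AddSubgroup G) (x : G), H ≠ ⊥ ∧ X = cos H x)

/-- Row SID: growth under a Sidon set. -/
def SID : Prop :=
  ∀ (G : Type u) [AddCommGroup G] [Fintype G] [DecidableEq G] (K : AddSubgroup G)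
    (Y : Finset G), Sid Y → (0 : G) ∈ Y → (∀ y ∈ Y, y ∈ K) →
    (∀ H : AddSubgroup G, (∀ y ∈ Y, y ∈ H) → K ≤ H) → 3 ≤ Y.card →
    ∀ X : Finset G, (∀ x ∈ X, x ∈ K) → 2 ≤ X.card → (X + Y).card + 2 ≤ Nat.card K →
      X.card + Y.card ≤ (X + Y).card

/-- Row TWO: a Sidon set with small growth generates the group. -/
def TWO : Prop :=
  ∀ (G : Type u) [AddCommGroup G] [Fintype G] [DecidableEq G] (K : AddSubgroup G)
    (W Y : Finset G), Gen W → (0 : G) ∈ W → NI W → Sid Y → (0 : G) ∈ Y → (∀ y ∈ Y, y ∈ K) →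
    (∀ H : AddSubgroup G, (∀ y ∈ Y, y ∈ H) → K ≤ H) → 2 ≤ Y.card →
    (Wᶜ + Y).card + 1 ≤ Wᶜ.card + Y.card → (Wᶜ + Y).card + 2 ≤ Fintype.card G → K = ⊤

/-- Row CYC: a critical pair makes the group cyclic. -/
def CYC : Prop :=
  ∀ (G : Type u) [AddCommGroup G] [Fintype G] [DecidableEq G] (W Y : Finset G),
    Gen W → (0 : G) ∈ W → NI W → 2 ≤ Wᶜ.card → 2 ≤ Y.card →
    (Wᶜ + Y).card + 1 ≤ Wᶜ.card + Y.card → (Wᶜ + Y).card + 2 ≤ Fintype.card G →
    ∃ d : G, ∀ x, x ∈ AddSubgroup.zmultiples d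

/-- Row TR: transfer along an injective homomorphism. -/
def TR : Prop :=
  ∀ (G : Type u) [AddCommGroup G] [Fintype G] [DecidableEq G]
    (K : Type u) [AddCommGroup K] [Fintype K] [DecidableEq K] (φ : K →+ G)
    (hφ : Function.Injective φ) (B : Finset K),
    Gam (B.map ⟨φ, hφ⟩) (B.map ⟨φ, hφ⟩) (ng (B.map ⟨φ, hφ⟩)) = Gam B B (ng B) ∧
    (HasSt B B (ng B) → HasSt (B.map ⟨φ, hφ⟩) (B.map ⟨φ, hφ⟩) (ng (B.map ⟨φ, hφ⟩)))

/-- Row INV: the inverse theorem. -/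
def INV : Prop :=
  ∀ (G : Type u) [AddCommGroup G] [Fintype G] [DecidableEq G] (W : Finset G),
    Odd (Fintype.card G) → ¬ HasSt W W (ng W) → Gam W W (ng W) = 1 →
    ∃ d : G, ∀ w ∈ W, w ∈ AddSubgroup.zmultiples d

/-- Row SEC: existence of sections, and the constructions. -/
def SEC : Prop :=
  ∀ (G : Type u) [AddCommGroup G] [Fintype G] [DecidableEq G],
    (∀ (Q : Type u) [AddCommGroup Q] (f : G →+ Q), Function.Surjective f →
      ∀ x : Q, Sec G (Nat.card f.ker) (addOrderOf x)) ∧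
    (∀ k p : ℕ, p.Prime → k * p ∣ Fintype.card G → Sec G k p) ∧
    ∀ (b : ℕ) (v : ℤ), Adm G b v → ∃ B : Finset G, B.card = b ∧ v ≤ Gam B B (ng B)

/-- Row TOP: complements of small sum-free sets. -/
def TOP : Prop :=
  ∀ (G : Type u) [AddCommGroup G] [Fintype G] [DecidableEq G] (N b : ℕ), N ∣ Fintype.card G →
    b ≤ N →
    (∀ i, Cl G i → 2 * N < 3 * b → Adm G b ((2 * (N : ℤ) - 3 * b) ^ 2)) ∧
    ∀ d : ℕ, d ∣ N → d % 3 = 2 → N ≤ b + (d + 1) / 3 * (N / d) →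
      Adm G b ((2 * (N : ℤ) - 3 * b) ^ 2)

/-- Row DOM: quotients of even order. -/
def DOM : Prop :=
  ∀ (G : Type u) [AddCommGroup G] [Fintype G] [DecidableEq G]
    (Q : Type u) [AddCommGroup Q] [Fintype Q] [DecidableEq Q] (f : G →+ Q) (g : G) (a c : ℕ),
    Function.Surjective f → addOrderOf g * (2 ^ a * 3 ^ c) = Fintype.card G →
    Even (Fintype.card Q) →
    ∃ j : ℕ, Sec G (Nat.card f.ker) j ∧ Nat.card f.ker * j ∣ Fintype.card G ∧
      ∀ b ≤ Fintype.card G, j * Nat.card f.ker < b →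
        ∃ M : ℕ, Adm G b ((2 * ((M * Nat.card f.ker : ℕ) : ℤ) - 3 * b) ^ 2)

/-- Row ARC: the value of an arc is admissible or dominated. -/
def ARC : Prop :=
  ∀ (G : Type u) [AddCommGroup G] [Fintype G] [DecidableEq G]
    (Q : Type u) [AddCommGroup Q] [Fintype Q] [DecidableEq Q] (f : G →+ Q) (W : Finset Q)
    (i b s : ℕ), Cl G i → Function.Surjective f → ¬ HasSt W W (ng W) → Gam W W (ng W) = 1 →
    b ≤ Fintype.card G → 5 * s ≤ Nat.card f.ker →
    (b = W.card * Nat.card f.ker + s ∨ b + s = W.card * Nat.card f.ker) →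
    ∃ v, Adm G b v ∧ ((Nat.card f.ker : ℤ) - s) * ((Nat.card f.ker : ℤ) - 5 * s) ≤ v

/-- Row MS: the upper bound by admissible values. -/
def MS : Prop :=
  ∀ (G : Type u) [AddCommGroup G] [Fintype G] [DecidableEq G] (i : ℕ) (B : Finset G), Cl G i →
    1 ≤ Gam B B (ng B) → ∃ v, Adm G B.card v ∧ Gam B B (ng B) ≤ v

/-- Row COV: a nonnegative admissible value exists. -/
def COV : Prop :=
  ∀ (G : Type u) [AddCommGroup G] [Fintype G] [DecidableEq G] (i b : ℕ), Cl G i →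
    (Even (Fintype.card G) ∨ i = 1) → 0 < b → b ≤ Fintype.card G → ∃ v, Adm G b v ∧ 0 ≤ v

end Pool.Agent.MP_ed46bc_co.SC
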